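import Pool.Agent.Lib.MP_9a7843_ag_D.Ord

/-!
# MP_d118f9_ag (Green's conjecture), double covers: definitions

Smooth projective curves over an algebraically closed field `k` are represented by their function
fields `K`; points are the discrete valuation rings of `K` that contain `k`.  Text:
`/team-store/TEXT_d118f9_DC.md`.
-/

set_option autoImplicit false

noncomputable section

open Classical

namespace Pool.Agent.MPd118f9

/-- `K` is the function field of a smooth projective curve over the algebraically closed field `k`: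
a finite extension of a rational function field `k(z)`. -/
def IsCurve (k K : Type) [Field k] [Field K] [Algebra k K] : Prop :=
  ∃ z : K, Transcendental k z ∧ FiniteDimensional (IntermediateField.adjoin k {z}) K

/-- The points of the curve: the discrete valuation rings of `K` that contain `k`. -/
def Pt (k K : Type) [Field k] [Field K] [Algebra k K] : Type :=
  {A : ValuationSubring K // MP9a7843.IsDVRof k A}

section

variable {k K : Type} [Field k] [Field K] [Algebra k K]

/-- The order of vanishing of `f` at the point `P` (`0` for `f = 0`). -/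
def Pt.ord (P : Pt k K) (f : K) : ℤ := MP9a7843.ord P.1 f

/-- Divisors. -/
abbrev Dv (k K : Type) [Field k] [Field K] [Algebra k K] : Type := Pt k K →₀ ℤ

/-- The degree of a divisor. -/
def deg (D : Dv k K) : ℤ := D.sum fun _ n => n

theorem Pt.ord_mul (P : Pt k K) {f g : K} (hf : f ≠ 0) (hg : g ≠ 0) :
    P.ord (f * g) = P.ord f + P.ord g := P.2.ord_mul hf hg

theorem Pt.ord_inv (P : Pt k K) (f : K) : P.ord f⁻¹ = -P.ord f := P.2.ord_inv f

theorem Pt.ord_neg (P : Pt k K) (f : K) : P.ord (-f) = P.ord f := P.2.ord_neg f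

theorem Pt.ord_algebraMap (P : Pt k K) (c : k) : P.ord (algebraMap k K c) = 0 := by
  by_cases hc : c = 0
  · rw [hc, map_zero]
    exact MP9a7843.ord_zero
  · exact P.2.ord_eq_of_val (P.2.val_algebraMap hc)

theorem Pt.le_ord_iff (P : Pt k K) {f ϖ : K} (hf : f ≠ 0) (hϖ : P.ord ϖ = 1) (n : ℤ) :
    n ≤ P.ord f ↔ f / ϖ ^ n ∈ P.1 := by
  have h0 : ϖ ≠ 0 := by
    intro h
    rw [h] at hϖ
    have h1 : P.ord (0 : K) = 0 := MP9a7843.ord_zero
    omega
  have h1 : f / ϖ ^ n ≠ 0 := div_ne_zero hf (zpow_ne_zero n h0)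
  rw [← P.2.ord_nonneg_iff h1, P.2.ord_div hf (zpow_ne_zero n h0), P.2.ord_zpow]
  have h2 : MP9a7843.ord P.1 ϖ = 1 := hϖ
  rw [h2]
  show n ≤ MP9a7843.ord P.1 f ↔ _
  constructor <;> intro h <;> linarith

theorem Pt.exists_unif (P : Pt k K) : ∃ ϖ : K, P.ord ϖ = 1 := by
  obtain ⟨ϖ, h⟩ := P.2.exists_isUnif
  exact ⟨ϖ, h.ord_self⟩

theorem Pt.le_ord_add (P : Pt k K) {f g : K} (hf : f ≠ 0) (hg : g ≠ 0) (hfg : f + g ≠ 0) {n : ℤ}
    (h1 : n ≤ P.ord f) (h2 : n ≤ P.ord g) : n ≤ P.ord (f + g) := by
  obtain ⟨ϖ, hϖ⟩ := P.exists_unif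
  rw [P.le_ord_iff hf hϖ] at h1
  rw [P.le_ord_iff hg hϖ] at h2
  rw [P.le_ord_iff hfg hϖ, add_div]
  exact P.1.add_mem _ _ h1 h2

/-- The space `L(D)` of functions `f` with `div f + D ≥ 0`. -/
def L (D : Dv k K) : Submodule k K where
  carrier := {f | f = 0 ∨ ∀ P, -D P ≤ P.ord f}
  zero_mem' := Or.inl rfl
  add_mem' := by
    rintro f g (hf | hf) (hg | hg)
    · left
      rw [hf, hg, add_zero]
    · right
      rwa [hf, zero_add]
    · right
      rwa [hg, add_zero]
    · by_cases hf0 : f = 0
      · rw [hf0, zero_add]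
        exact Or.inr hg
      by_cases hg0 : g = 0
      · rw [hg0, add_zero]
        exact Or.inr hf
      by_cases hfg : f + g = 0
      · exact Or.inl hfg
      · exact Or.inr fun P => P.le_ord_add hf0 hg0 hfg (hf P) (hg P)
  smul_mem' := by
    rintro c f (hf | hf)
    · left
      rw [hf, smul_zero]
    · by_cases hc : c = 0
      · left
        rw [hc, zero_smul]
      by_cases hf0 : f = 0
      · left
        rw [hf0, smul_zero]
      right
      intro P
      rw [Algebra.smul_def, P.ord_mul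
        ((map_ne_zero_iff _ (algebraMap k K).injective).2 hc) hf0, P.ord_algebraMap, zero_add]
      exact hf P

theorem mem_L {D : Dv k K} {f : K} : f ∈ L D ↔ f = 0 ∨ ∀ P, -D P ≤ P.ord f := Iff.rfl

/-- The dimension `l(D)` of `L(D)`. -/
def ell (D : Dv k K) : ℕ := Module.finrank k (L D)

/-- `W` is a canonical divisor: a divisor of degree `2 g - 2` with `l(W) = g` (by the theorem of
Riemann and Roch these are exactly the canonical divisors). -/
def IsCanG (g : ℕ) (W : Dv k K) : Prop := deg W = 2 * (g : ℤ) - 2 ∧ ell W = g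

/-- The Clifford index: the minimum of `deg D - 2 (l(D) - 1)` over the divisors with `l(D) ≥ 2` and
`h^1(D) = l(W - D) ≥ 2` (`W` a canonical divisor). -/
def cliff (W : Dv k K) : ℕ :=
  sInf {n : ℕ | ∃ D : Dv k K, 2 ≤ ell D ∧ 2 ≤ ell (W - D) ∧
    (n : ℤ) = deg D - 2 * ((ell D : ℤ) - 1)}

end

/-- The genus: the maximum of `deg D + 1 - l(D)`. -/
def genus (k K : Type) [Field k] [Field K] [Algebra k K] : ℕ :=
  sSup {n : ℕ | ∃ D : Dv k K, (n : ℤ) = deg D + 1 - ell D}

/-- The gonality: the smallest degree of an effective divisor `D` with `l(D) ≥ 2`. -/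
def gon (k K : Type) [Field k] [Field K] [Algebra k K] : ℕ :=
  sInf {n : ℕ | ∃ D : Dv k K, 0 ≤ D ∧ 2 ≤ ell D ∧ (n : ℤ) = deg D}

/-- `W` is a canonical divisor. -/
def IsCan {k K : Type} [Field k] [Field K] [Algebra k K] (W : Dv k K) : Prop :=
  IsCanG (genus k K) W

/-! ### Koszul homology in index form -/

section

variable {ι κ M : Type} [AddCommGroup M]

/-- Alternating functions of `i` indices. -/
def Alt {i : ℕ} (c : (Fin i → ι) → M) : Prop :=
  ∀ (σ : Equiv.Perm (Fin i)) (I : Fin i → ι), c (I ∘ σ) = ((Equiv.Perm.sign σ : ℤˣ) : ℤ) • c I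

/-- The cycles of the Koszul complex (there is no condition for `i = 0`). -/
def IsCyc {A : Type} [CommRing A] [Fintype ι] (v : ι → A) : ∀ {i : ℕ}, ((Fin i → ι) → A) → Prop
  | 0, _ => True
  | _ + 1, c => ∀ J, ∑ j, v j * c (Fin.cons j J) = 0

end

section

variable {k K : Type} [Field k] [Field K] [Algebra k K]

/-- Exactness of the Koszul complex
`∧^(i+1) L(W) ⊗ L((q-1) W) → ∧^i L(W) ⊗ L(q W) → ∧^(i-1) L(W) ⊗ L((q+1) W)`
at the middle term (for `i = 0` the last term is zero), in index form: with a basis `v_1, …, v_r` of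
`L(W)`, the elements of `∧^i L(W) ⊗ L(q W)` are the alternating functions `c` of `i` indices with
values in `L(q W)`, and the differential is `(d c)(J) = ∑ j, v_j c(j, J)`.  Exactness means that
`Tor_i(R, k)_(i+q) = 0` for the canonical ring `R = ⊕ L(m W)` as a module over the symmetric algebra
of `L(W)`, that is, there is no summand `S(-i-q)` in the `i`-th step of the minimal free
resolution. -/
def KosExact (W : Dv k K) (i q : ℕ) : Prop :=
  ∀ (r : ℕ) (v : Module.Basis (Fin r) k (L W)) (c : (Fin i → Fin r) → K), Alt c →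
    (∀ I, c I ∈ L (q • W)) → IsCyc (fun j => (v j : K)) c →
      ∃ b : (Fin (i + 1) → Fin r) → K, Alt b ∧ (∀ I, b I ∈ L ((q - 1) • W)) ∧
        ∀ I, c I = ∑ j, (v j : K) * b (Fin.cons j I)

/-- The property `(N_p)` of the divisor `W`. -/
def Np (W : Dv k K) (p : ℕ) : Prop := ∀ i ≤ p, ∀ q, 2 ≤ q → KosExact W i q

end

end Pool.Agent.MPd118f9
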