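import Pool.Agent.Lib.MP_d118f9_ag.Iface1
import Pool.Agent.Lib.MP_d118f9_ag.C.PHom
import Pool.Agent.Lib.MP_d118f9_ag.C.PVery

/-!
# MP_d118f9_ag, double covers: interface of block C (affine rings, very ampleness)

The proofs are in the modules `C/P*.lean`.
-/

set_option autoImplicit false

noncomputable section

open Classical

namespace Pool.Agent.MPd118f9

/-! ### Facts on curves -/

section

variable {k K : Type} [Field k] [IsAlgClosed k] [CharZero k] [Field K] [Algebra k K]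

/-- The affine ring is a finitely generated algebra. -/
theorem IsCurve.finiteType_Rz (hK : IsCurve k K) {z : K} (hz : ∀ c : k, z ≠ algebraMap k K c) :
    Algebra.FiniteType k (Rz k z) :=
  finiteType_Rz' hK hz

theorem IsCurve.fg_bz (hK : IsCurve k K) {z : K} (hz : ∀ c : k, z ≠ algebraMap k K c)
    (D : Dv k K) : (bz z D).FG :=
  fg_bz' hK hz D

/-- The points of the affine curve. -/
theorem IsCurve.exists_pt_of_hom (hK : IsCurve k K) {z : K} (hz : ∀ c : k, z ≠ algebraMap k K c)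
    (χ : Rz k z →ₐ[k] k) :
    ∃ P : Pt k K, 0 ≤ P.ord z ∧ ∀ f : Rz k z, χ f = 0 ↔ (f : K) = 0 ∨ 0 < P.ord (f : K) :=
  exists_pt_of_hom' hK hz χ

/-- `𝔪_P b_D = b_(D - P)`: every element of `b_(D - P)` is a sum of products. -/
theorem IsCurve.bz_sub_single (hK : IsCurve k K) {z : K} (hz : ∀ c : k, z ≠ algebraMap k K c)
    (D : Dv k K) {P : Pt k K} (hP : 0 ≤ P.ord z) {I : Ideal (Rz k z)}
    (hI : ∀ f : Rz k z, f ∈ I ↔ (f : K) = 0 ∨ 0 < P.ord (f : K)) :
    I • bz z D = bz z (D - Finsupp.single P 1) :=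
  bz_sub_single' hK hz D hP hI

/-- `b_D` is the union of the `L(D + m E)`, `E` the pole divisor of `z`. -/
theorem IsCurve.mem_bz_iff (hK : IsCurve k K) {z : K} (hz : ∀ c : k, z ≠ algebraMap k K c)
    (D : Dv k K) (f : K) : f ∈ bz z D ↔ ∃ m : ℕ, f ∈ L (D + m • poles k z) :=
  mem_bz_iff' hK hz D f

/-- Very ampleness of the canonical divisor: `n ≤ gon - 1` points impose independent conditions. -/
theorem IsCan.veryAmple (hK : IsCurve k K) {W : Dv k K} (hW : IsCan W) {z : K}
    (hz : ∀ c : k, z ≠ algebraMap k K c) {n : ℕ} (hn : n + 1 ≤ gon k K) (P : Fin n → Pt k K)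
    (hP : ∀ i, 0 ≤ (P i).ord z) {b : K} (hb : b ∈ bz z W) :
    ∃ v ∈ L W, b - v ∈ bz z (W - ∑ i, Finsupp.single (P i) 1) :=
  veryAmple' hK hW hz hn P hP hb

end

end Pool.Agent.MPd118f9
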