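import Pool.Agent.Lib.MP_d118f9_ag.Defs

/-!
# MP_d118f9_ag, double covers: definitions for block C
-/

set_option autoImplicit false

noncomputable section

open Classical

namespace Pool.Agent.MPd118f9

section

variable {k K : Type} [Field k] [Field K] [Algebra k K]

/-- The principal divisor of `f` (the junk value `0` if `f` has infinitely many zeros or poles). -/
def dv (k : Type) {K : Type} [Field k] [Field K] [Algebra k K] (f : K) : Dv k K :=
  if h : {P : Pt k K | P.ord f ≠ 0}.Finite then
    Finsupp.onFinset h.toFinset (fun P => P.ord f) (fun P hP => by simpa using hP)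
  else 0

/-- The pole divisor. -/
def poles (k : Type) {K : Type} [Field k] [Field K] [Algebra k K] (z : K) : Dv k K :=
  (-dv k z) ⊔ 0

/-- The ring of the functions that are regular at all points which are no poles of `z`. -/
def Rz (k : Type) {K : Type} [Field k] [Field K] [Algebra k K] (z : K) : Subalgebra k K where
  carrier := {f | ∀ P : Pt k K, 0 ≤ P.ord z → 0 ≤ P.ord f}
  mul_mem' := by
    intro f g hf hg P hP
    by_cases hf0 : f = 0
    · rw [hf0, zero_mul]
      exact (MP9a7843.ord_zero (A := P.1)).ge
    by_cases hg0 : g = 0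
    · rw [hg0, mul_zero]
      exact (MP9a7843.ord_zero (A := P.1)).ge
    rw [P.ord_mul hf0 hg0]
    exact add_nonneg (hf P hP) (hg P hP)
  add_mem' := by
    intro f g hf hg P hP
    by_cases hf0 : f = 0
    · rw [hf0, zero_add]
      exact hg P hP
    by_cases hg0 : g = 0
    · rw [hg0, add_zero]
      exact hf P hP
    by_cases hfg : f + g = 0
    · rw [hfg]
      exact (MP9a7843.ord_zero (A := P.1)).ge
    exact P.le_ord_add hf0 hg0 hfg (hf P hP) (hg P hP)
  algebraMap_mem' := by
    intro c P _
    rw [P.ord_algebraMap]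

theorem mem_Rz {z f : K} : f ∈ Rz k z ↔ ∀ P : Pt k K, 0 ≤ P.ord z → 0 ≤ P.ord f := Iff.rfl

/-- The functions whose poles outside the poles of `z` are bounded by `D`. -/
def bz (z : K) (D : Dv k K) : Submodule (Rz k z) K where
  carrier := {f | f = 0 ∨ ∀ P : Pt k K, 0 ≤ P.ord z → -D P ≤ P.ord f}
  zero_mem' := Or.inl rfl
  add_mem' := by
    rintro f g (hf | hf) (hg | hg)
    · left
      rw [hf, hg, add_zero]
    · right
      rwa [hf, zero_add]
    · right
      rwa [hg, add_zero]
    · by_cases hf0 : f = 0
      · rw [hf0, zero_add]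
        exact Or.inr hg
      by_cases hg0 : g = 0
      · rw [hg0, add_zero]
        exact Or.inr hf
      by_cases hfg : f + g = 0
      · exact Or.inl hfg
      · exact Or.inr fun P hP => P.le_ord_add hf0 hg0 hfg (hf P hP) (hg P hP)
  smul_mem' := by
    rintro ⟨r, hr⟩ f (hf | hf)
    · left
      rw [hf, smul_zero]
    · by_cases hr0 : r = 0
      · left
        show r * f = 0
        rw [hr0, zero_mul]
      by_cases hf0 : f = 0
      · left
        rw [hf0, smul_zero]
      right
      intro P hP
      show -D P ≤ P.ord (r * f)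
      rw [P.ord_mul hr0 hf0]
      have h1 := hr P hP
      have h2 := hf P hP
      linarith

theorem mem_bz {z f : K} {D : Dv k K} :
    f ∈ bz z D ↔ f = 0 ∨ ∀ P : Pt k K, 0 ≤ P.ord z → -D P ≤ P.ord f := Iff.rfl

end

end Pool.Agent.MPd118f9
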