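import Pool.Agent.Lib.MP_d118f9_ag.C.AEl
import Pool.Agent.Lib.MP_d118f9_ag.C.A8
import Pool.Agent.Lib.MP_d118f9_ag.C.AInf
import Pool.Agent.Lib.MP_d118f9_ag.C.RRd

/-!
# MP_d118f9_ag, double covers: interface of block C (facts on curves, part 1)

The elementary facts, Riemann's theorem and the points are in the modules `C/A*.lean`; the theorem
of Riemann and Roch is in the modules `C/RR*.lean`.
-/

set_option autoImplicit false

noncomputable section

open Classical

namespace Pool.Agent.MPd118f9

section

variable {k K : Type} [Field k] [IsAlgClosed k] [CharZero k] [Field K] [Algebra k K]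

theorem IsCurve.exists_can (hK : IsCurve k K) : ∃ W : Dv k K, IsCan W :=
  rr_exists_can hK

/-- The theorem of Riemann and Roch. -/
theorem IsCan.riemann_roch (hK : IsCurve k K) {W : Dv k K} (hW : IsCan W) (D : Dv k K) :
    (ell D : ℤ) = deg D + 1 - genus k K + ell (W - D) :=
  rr_riemann_roch hK hW D

/-- Canonical divisors are linearly equivalent. -/
theorem IsCan.equiv (hK : IsCurve k K) {W W' : Dv k K} (hW : IsCan W) (hW' : IsCan W') :
    ∃ f : K, f ≠ 0 ∧ W' = W + dv k f :=
  rr_equiv hK hW hW'

end

end Pool.Agent.MPd118f9
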