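import Pool.Agent.Lib.MP_d118f9_ag.NH

/-!
# MP_d118f9_ag, block N, module NI: the output of block N
-/

set_option autoImplicit false

noncomputable section

namespace Pool.Agent.MPd118f9

/-- The output of block N: alternating functions with values in `bW` are, simultaneously at the
`n` points `ι l`, combinations of the functions `∑ j, c' j J • w j + ∑ j, w j * b (j, J)`. -/
theorem N_out {k F 𝔸 : Type} [Field k] [IsAlgClosed k] [CharZero k] [Field F] [Algebra k F]
    [CommRing 𝔸] [Algebra k 𝔸] {n m K h : ℕ} (hnm : n + m ≤ 2 * K) (R : Subalgebra k F)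
    (hR : Algebra.FiniteType k R) (bW : Submodule R F) (hfg : bW.FG) (w : Fin h → F)
    (hw : ∀ j, w j ∈ bW)
    (h1 : ∀ j ≤ K, ∀ χ : Fin j → (R →ₐ[k] k), ∀ b ∈ bW, ∃ v : Fin h → k,
      b - ∑ i, v i • w i ∈ (∏ l, RingHom.ker (χ l)) • bW)
    (h2 : ∀ χ : Fin n → (R →ₐ[k] k), ∃ b₀ ∈ bW,
      (∀ b ∈ bW, ∃ r : R, b - r • b₀ ∈ (∏ l, RingHom.ker (χ l)) • bW) ∧
      ∀ r : R, r • b₀ ∈ (∏ l, RingHom.ker (χ l)) • bW → r ∈ ∏ l, RingHom.ker (χ l))
    (ι : Fin n → F →ₐ[k] 𝔸) (c : (Fin m → Fin h) → F) (hc : Alt c) (hcb : ∀ J, c J ∈ bW) :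
    ∃ (T : ℕ) (H : Fin T → 𝔸) (c' : Fin T → Fin h → (Fin m → Fin h) → k)
      (b : Fin T → (Fin (m + 1) → Fin h) → F),
      (∀ t, H t ∈ Algebra.adjoin k (⋃ l, (ι l) '' (R : Set F))) ∧
      (∀ t j, Alt (c' t j)) ∧ (∀ t, Alt (b t)) ∧ (∀ t J, b t J ∈ R) ∧
      ∀ l J, ι l (c J) =
        ∑ t, H t * ι l (∑ j, c' t j J • w j + ∑ j, w j * b t (Fin.cons j J)) := by
  classical
  have hN : IsNoetherianRing R := Algebra.FiniteType.isNoetherianRing k R
  have hMf : Module.Finite R (altSub m h R bW) :=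
    Module.Finite.iff_fg.2 (altSub_fg R bW hfg)
  let δ : ∀ _ : Fin n, (altSub m h R bW) →+ ((Fin m → Fin h) → 𝔸) := fun l =>
    { toFun := fun c J => ι l ((c : (Fin m → Fin h) → F) J)
      map_zero' := by
        funext J
        exact map_zero _
      map_add' := by
        intro x y
        funext J
        exact map_add _ _ _ }
  obtain ⟨T, H, γ, hH, hγ, hid⟩ := nch (N := fun _ => ((Fin m → Fin h) → 𝔸))
    (fun l => (ι l).comp R.val) δ (by
      intro l r b
      funext J
      change ι l ((r : F) * (b : (Fin m → Fin h) → F) J) =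
        ι l (r : F) * ι l ((b : (Fin m → Fin h) → F) J)
      rw [map_mul])
    {γ : altSub m h R bW | ∃ (c' : Fin h → (Fin m → Fin h) → k)
      (b : (Fin (m + 1) → Fin h) → R), (∀ j, Alt (c' j)) ∧ Alt b ∧
      ∀ J, (γ : (Fin m → Fin h) → F) J =
        ∑ j, c' j J • w j + ∑ j, w j * (b (Fin.cons j J) : F)} (by
      intro χ d
      obtain ⟨b₀, hb₀, hr, hinj⟩ := h2 χ
      obtain ⟨c', b, hc', hb, hcb'⟩ := local_out hnm R hR bW w hw h1 χ b₀ hb₀ hr hinj
        (d : (Fin m → Fin h) → F) d.2.1 d.2.2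
      have hγ : (fun J => ∑ j, c' j J • w j + ∑ j, w j * (b (Fin.cons j J) : F)) ∈
          altSub m h R bW := by
        refine ⟨fun σ J => ?_, fun J => ?_⟩
        · simp only [smul_add, Finset.smul_sum]
          refine congrArg₂ _ (Finset.sum_congr rfl fun j _ => ?_)
            (Finset.sum_congr rfl fun j _ => ?_)
          · rw [hc' j σ J, smul_assoc]
          · have h3 : (Fin.cons j (J ∘ σ) : Fin (m + 1) → Fin h) =
                (Fin.cons j J : Fin (m + 1) → Fin h) ∘
                  (Equiv.Perm.decomposeFin.symm (0, σ)) := by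
              funext x
              refine Fin.cases ?_ (fun x => ?_) x
              · change j = (Fin.cons j J : Fin (m + 1) → Fin h)
                  (Equiv.Perm.decomposeFin.symm (0, σ) 0)
                rw [Equiv.Perm.decomposeFin_symm_apply_zero, Fin.cons_zero]
              · change J (σ x) = (Fin.cons j J : Fin (m + 1) → Fin h)
                  (Equiv.Perm.decomposeFin.symm (0, σ) x.succ)
                rw [Equiv.Perm.decomposeFin_symm_apply_succ, Equiv.swap_self, Equiv.refl_apply,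
                  Fin.cons_succ]
            rw [h3, hb _ (Fin.cons j J), Equiv.Perm.decomposeFin.symm_sign, if_pos rfl, one_mul,
              ← mul_smul_comm]
            rfl
        · refine bW.add_mem (Submodule.sum_mem _ fun j _ => ?_)
            (Submodule.sum_mem _ fun j _ => ?_)
          · have h3 : c' j J • w j = (algebraMap k R (c' j J)) • w j := by
              rw [algebraMap_smul]
            rw [h3]
            exact bW.smul_mem _ (hw j)
          · rw [mul_comm]
            exact bW.smul_mem (b (Fin.cons j J)) (hw j)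
      refine ⟨⟨_, hγ⟩, ⟨c', b, hc', hb, fun J => rfl⟩, ?_⟩
      rw [Submodule.mem_smul_top_iff]
      refine mem_smul_altSub R bW _ ?_ ?_
      · exact (Submodule.sub_mem _ d.2 hγ).1
      · exact hcb')
    ⟨c, hc, hcb⟩
  choose c' b hc' hb hcb' using hγ
  refine ⟨T, H, c', fun t J => (b t J : F), fun t => ?_, hc', fun t σ J => ?_,
    fun t J => (b t J).2, fun l J => ?_⟩
  · have h3 : genAlg (fun l => (ι l).comp R.val) ≤
        Algebra.adjoin k (⋃ l, (ι l) '' (R : Set F)) := by
      refine iSup_le fun l => ?_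
      rintro _ ⟨r, rfl⟩
      exact Algebra.subset_adjoin (Set.mem_iUnion.2 ⟨l, ⟨(r : F), r.2, rfl⟩⟩)
    exact h3 (hH t)
  · change ((b t (J ∘ σ) : R) : F) = _
    rw [hb t σ J]
    rfl
  · have h3 := congrFun (hid l) J
    rw [Finset.sum_apply] at h3
    change ι l (c J) = _ at h3
    rw [h3]
    refine Finset.sum_congr rfl fun t _ => ?_
    change H t * ι l (((γ t : altSub m h R bW) : (Fin m → Fin h) → F) J) = _
    rw [hcb' t J]

end Pool.Agent.MPd118f9
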