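import Mathlib

/-!
# MP_d118f9_ag, block N, module NA: the local-global principle over a finitely generated algebra
-/

set_option autoImplicit false

namespace Pool.Agent.MPd118f9

/-- Nullstellensatz: every maximal ideal is the kernel of a character. -/
theorem exists_char {k B : Type*} [Field k] [IsAlgClosed k] [CommRing B] [Algebra k B]
    [Algebra.FiniteType k B] (m : Ideal B) (hm : m.IsMaximal) :
    ∃ χ : B →ₐ[k] k, RingHom.ker χ = m := by
  let _ : Field (B ⧸ m) := Ideal.Quotient.field m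
  have hfin : Module.Finite k (B ⧸ m) := finite_of_finite_type_of_isJacobsonRing k (B ⧸ m)
  have hbij : Function.Bijective (algebraMap k (B ⧸ m)) :=
    IsAlgClosed.algebraMap_bijective_of_isIntegral
  let e : k ≃ₐ[k] (B ⧸ m) := AlgEquiv.ofBijective (Algebra.ofId k (B ⧸ m)) hbij
  refine ⟨(e.symm : (B ⧸ m) →ₐ[k] k).comp (Ideal.Quotient.mkₐ k m), ?_⟩
  ext x
  rw [RingHom.mem_ker]
  constructor
  · intro h
    have h1 : e.symm (Ideal.Quotient.mkₐ k m x) = 0 := h
    rw [map_eq_zero_iff _ e.symm.injective] at h1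
    exact Ideal.Quotient.eq_zero_iff_mem.1 h1
  · intro h
    have h1 : Ideal.Quotient.mkₐ k m x = 0 := Ideal.Quotient.eq_zero_iff_mem.2 h
    change e.symm (Ideal.Quotient.mkₐ k m x) = 0
    rw [h1, map_zero]

/-- Nakayama: an inclusion of submodules can be checked at the characters. -/
theorem nak {k B N : Type*} [Field k] [IsAlgClosed k] [CommRing B] [Algebra k B]
    [Algebra.FiniteType k B] [AddCommGroup N] [Module B N] {N1 N2 : Submodule B N}
    (hfg : N1.FG) (h : ∀ χ : B →ₐ[k] k, N1 ≤ N2 ⊔ (RingHom.ker χ) • N1) : N1 ≤ N2 := by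
  let J : Ideal B := N2.colon (N1 : Set N)
  by_contra hne
  have hJ : J ≠ ⊤ := by
    intro hJ
    apply hne
    intro x hx
    have h1 : (1 : B) ∈ J := by rw [hJ]; trivial
    have h2 := Submodule.mem_colon.1 h1 x hx
    rwa [one_smul] at h2
  obtain ⟨m, hm, hJm⟩ := Ideal.exists_le_maximal J hJ
  obtain ⟨χ, hχ⟩ := exists_char (k := k) m hm
  have h1 := h χ
  rw [hχ] at h1
  obtain ⟨r, hr1, hr2⟩ :=
    Submodule.exists_sub_one_mem_and_smul_le_of_fg_of_le_sup hfg le_rfl h1
  have hrJ : r ∈ J := by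
    apply Submodule.mem_colon.2
    intro x hx
    exact hr2 (Submodule.smul_mem_pointwise_smul x r N1 hx)
  have h2 : (1 : B) ∈ m := by
    have h3 := m.sub_mem (hJm hrJ) hr1
    rwa [sub_sub_cancel] at h3
  exact hm.ne_top ((Ideal.eq_top_iff_one m).2 h2)

end Pool.Agent.MPd118f9
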