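import Pool.Agent.Lib.MP_d118f9_ag.NA

/-!
# MP_d118f9_ag, block N, module NB: the NCH lemma (simultaneous values at several points)
-/

set_option autoImplicit false

namespace Pool.Agent.MPd118f9

section

variable {k R AA M L : Type*} [Field k] [CommRing R] [Algebra k R] [CommRing AA] [Algebra k AA]
  [AddCommGroup M] [Module R M]

/-- The algebra generated by the images of the `ι l`. -/
def genAlg (ι : L → R →ₐ[k] AA) : Subalgebra k AA := ⨆ l, (ι l).range

theorem mem_genAlg (ι : L → R →ₐ[k] AA) (l : L) (r : R) : ι l r ∈ genAlg ι :=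
  (le_iSup (fun l => (ι l).range) l) ⟨r, rfl⟩

theorem genAlg_fg [Finite L] [Algebra.FiniteType k R] (ι : L → R →ₐ[k] AA) :
    (genAlg ι).FG := by
  classical
  have h1 : ∀ l, (ι l).range.FG := by
    intro l
    rw [← Algebra.map_top]
    exact Subalgebra.FG.map _ (Algebra.FiniteType.out)
  have h2 : ∀ s : Finset L, (⨆ l ∈ s, (ι l).range).FG := by
    intro s
    induction s using Finset.induction_on with
    | empty =>
      simp only [Finset.notMem_empty, iSup_false, iSup_bot]
      exact Subalgebra.fg_bot
    | insert a s ha ih =>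
      rw [Finset.iSup_insert]
      exact (h1 a).sup ih
  have := Fintype.ofFinite L
  have h3 := h2 Finset.univ
  simpa [genAlg] using h3

/-- The map `ι l` with values in `genAlg ι`. -/
def toGen (ι : L → R →ₐ[k] AA) (l : L) : R →ₐ[k] genAlg ι :=
  (ι l).codRestrict (genAlg ι) (mem_genAlg ι l)

/-- Induction principle for elements of a product of ideals times a module. -/
theorem prod_smul_induction [DecidableEq L] (s : Finset L) (I : L → Ideal R) {p : M → Prop}
    (h0 : p 0) (hadd : ∀ x y, p x → p y → p (x + y))
    (h : ∀ r : L → R, (∀ l ∈ s, r l ∈ I l) → ∀ b, p ((∏ l ∈ s, r l) • b)) {x : M}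
    (hx : x ∈ (∏ l ∈ s, I l) • (⊤ : Submodule R M)) : p x := by
  have key : ∀ s : Finset L, ∀ y ∈ (∏ l ∈ s, I l), y ∈ AddSubmonoid.closure
      {c : R | ∃ r : L → R, (∀ l ∈ s, r l ∈ I l) ∧ ∃ d, c = (∏ l ∈ s, r l) * d} := by
    intro s
    induction s using Finset.induction_on with
    | empty =>
      intro y _
      exact AddSubmonoid.subset_closure ⟨fun _ => 0, fun l hl => absurd hl (Finset.notMem_empty l),
        y, by rw [Finset.prod_empty, one_mul]⟩
    | insert a s ha ih =>
      intro y hy
      rw [Finset.prod_insert ha] at hy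
      induction hy using Submodule.mul_induction_on' with
      | mem_mul_mem u hu v hv =>
        have hv' := ih v hv
        clear hv
        induction hv' using AddSubmonoid.closure_induction with
        | mem c hc =>
          obtain ⟨r, hr, d, rfl⟩ := hc
          refine AddSubmonoid.subset_closure ⟨Function.update r a u, ?_, d, ?_⟩
          · intro l hl
            by_cases hla : l = a
            · subst hla
              rw [Function.update_self]
              exact hu
            · rw [Function.update_of_ne hla]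
              exact hr l ((Finset.mem_insert.1 hl).resolve_left hla)
          · rw [Finset.prod_insert ha, Function.update_self, mul_assoc]
            congr 2
            refine Finset.prod_congr rfl fun l hl => ?_
            rw [Function.update_of_ne]
            rintro rfl
            exact ha hl
        | zero =>
          rw [mul_zero]
          exact AddSubmonoid.zero_mem _
        | add c d _ _ h1 h2 =>
          rw [mul_add]
          exact AddSubmonoid.add_mem _ h1 h2
      | add c _ d _ h1 h2 => exact AddSubmonoid.add_mem _ h1 h2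
  induction hx using Submodule.smul_induction_on' with
  | smul c hc b _ =>
    have hc' := key s c hc
    clear hc
    induction hc' using AddSubmonoid.closure_induction with
    | mem c hc =>
      obtain ⟨r, hr, d, rfl⟩ := hc
      rw [mul_smul]
      exact h r hr _
    | zero =>
      rw [zero_smul]
      exact h0
    | add c d _ _ h1 h2 =>
      rw [add_smul]
      exact hadd _ _ h1 h2
  | add x _ y _ hx hy => exact hadd _ _ hx hy

/-- The NCH lemma. -/
theorem nch [IsAlgClosed k] [Algebra.FiniteType k R] [Module.Finite R M] [Fintype L]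
    {N : L → Type*} [∀ l, AddCommGroup (N l)] [∀ l, Module AA (N l)]
    (ι : L → R →ₐ[k] AA) (δ : ∀ l, M →+ N l)
    (hδ : ∀ l r b, δ l (r • b) = ι l r • δ l b) (Γ : Set M)
    (hΓ : ∀ χ : L → R →ₐ[k] k, ∀ b : M, ∃ γ ∈ Γ,
      b - γ ∈ (∏ l, RingHom.ker (χ l) : Ideal R) • (⊤ : Submodule R M)) (b : M) :
    ∃ (T : ℕ) (h : Fin T → AA) (γ : Fin T → M), (∀ t, h t ∈ genAlg ι) ∧ (∀ t, γ t ∈ Γ) ∧
      ∀ l, δ l b = ∑ t, h t • δ l (γ t) := by
  classical
  let B := genAlg ι
  have hBfg : Algebra.FiniteType k B := (Subalgebra.fg_iff_finiteType _).1 (genAlg_fg ι)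
  have hBnoeth : IsNoetherianRing B := Algebra.FiniteType.isNoetherianRing k B
  let D : M →+ (∀ l, N l) :=
    { toFun := fun b l => δ l b
      map_zero' := by
        funext l
        exact map_zero _
      map_add' := by
        intro x y
        funext l
        exact map_add _ _ _ }
  have hD : ∀ b l, D b l = δ l b := fun b l => rfl
  let N1 : Submodule B (∀ l, N l) := Submodule.span B (Set.range D)
  let N2 : Submodule B (∀ l, N l) := Submodule.span B (D '' Γ)
  have hDmem : ∀ b, D b ∈ N1 := fun b => Submodule.subset_span ⟨b, rfl⟩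
  -- the module `N1` is finitely generated
  have hfg : N1.FG := by
    obtain ⟨s, hs⟩ := (Module.Finite.fg_top : (⊤ : Submodule R M).FG)
    let T : Submodule B (∀ l, N l) :=
      Submodule.span B (Set.range fun p : L × s => (Pi.single p.1 (δ p.1 p.2) : ∀ l, N l))
    have hT : T.FG := Submodule.fg_span (Set.finite_range _)
    refine Submodule.FG.of_le hT (Submodule.span_le.2 ?_)
    rintro _ ⟨b, rfl⟩
    have hb : b ∈ Submodule.span R (s : Set M) := by rw [hs]; trivial
    have h1 : ∀ l, ∀ b ∈ Submodule.span R (s : Set M),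
        (Pi.single l (δ l b) : ∀ l, N l) ∈ T := by
      intro l b hb
      induction hb using Submodule.span_induction with
      | mem x hx => exact Submodule.subset_span ⟨(l, ⟨x, hx⟩), rfl⟩
      | zero =>
        rw [map_zero, Pi.single_zero]
        exact T.zero_mem
      | add x y _ _ h1 h2 =>
        rw [map_add, Pi.single_add]
        exact T.add_mem h1 h2
      | smul r x _ h1 =>
        rw [hδ]
        have h2 : (Pi.single l (ι l r • δ l x) : ∀ l, N l) =
            (toGen ι l r : B) • (Pi.single l (δ l x) : ∀ l, N l) := by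
          rw [← Pi.single_smul]
          rfl
        rw [h2]
        exact T.smul_mem _ h1
    have h2 : D b = ∑ l, (Pi.single l (δ l b) : ∀ l, N l) := by
      funext l
      rw [Finset.sum_apply, Finset.sum_eq_single l]
      · rw [Pi.single_eq_same, hD]
      · intro l' _ hne
        rw [Pi.single_eq_of_ne hne.symm]
      · intro h
        exact absurd (Finset.mem_univ l) h
    change D b ∈ T
    rw [h2]
    exact Submodule.sum_mem _ fun l _ => h1 l b hb
  -- the expansion of the product
  have hexp : ∀ (χ : B →ₐ[k] k) (s : Finset L) (r : L → R),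
      (∀ l ∈ s, toGen ι l (r l) ∈ RingHom.ker χ) → ∀ b' : M,
      (fun l' => (∏ l ∈ s, (ι l' (r l) - ι l (r l))) • δ l' b') ∈ N1 ∧
      (fun l' => (∏ l ∈ s, (ι l' (r l) - ι l (r l))) • δ l' b') - D ((∏ l ∈ s, r l) • b') ∈
        (RingHom.ker χ) • N1 := by
    intro χ s r
    induction s using Finset.induction_on with
    | empty =>
      intro _ b'
      simp only [Finset.prod_empty, one_smul]
      refine ⟨hDmem b', ?_⟩
      have h0 : (fun l' => δ l' b') - D b' = 0 := sub_self _
      rw [h0]
      exact Submodule.zero_mem _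
    | insert a s ha ih =>
      intro hr b'
      have hr' : ∀ l ∈ s, toGen ι l (r l) ∈ RingHom.ker χ := fun l hl =>
        hr l (Finset.mem_insert_of_mem hl)
      obtain ⟨h1, h2⟩ := ih hr' b'
      obtain ⟨h3, h4⟩ := ih hr' (r a • b')
      have h5 : (fun l' => (∏ l ∈ insert a s, (ι l' (r l) - ι l (r l))) • δ l' b') =
          (fun l' => (∏ l ∈ s, (ι l' (r l) - ι l (r l))) • δ l' (r a • b')) -
          (toGen ι a (r a) : B) •
            (fun l' => (∏ l ∈ s, (ι l' (r l) - ι l (r l))) • δ l' b') := by
        funext l'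
        change (∏ l ∈ insert a s, (ι l' (r l) - ι l (r l))) • δ l' b' =
          (∏ l ∈ s, (ι l' (r l) - ι l (r l))) • δ l' (r a • b') -
          (ι a (r a)) • (∏ l ∈ s, (ι l' (r l) - ι l (r l))) • δ l' b'
        rw [Finset.prod_insert ha, hδ, smul_smul, smul_smul, ← sub_smul]
        congr 1
        ring
      have h6 : (toGen ι a (r a) : B) •
            (fun l' => (∏ l ∈ s, (ι l' (r l) - ι l (r l))) • δ l' b') ∈
          (RingHom.ker χ) • N1 :=
        Submodule.smul_mem_smul (hr a (Finset.mem_insert_self a s)) h1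
      have h7 : (∏ l ∈ insert a s, r l) • b' = (∏ l ∈ s, r l) • r a • b' := by
        rw [Finset.prod_insert ha, smul_smul, mul_comm]
      rw [h5, h7]
      refine ⟨N1.sub_mem h3 (N1.smul_mem _ h1), ?_⟩
      have h8 : (fun l' => (∏ l ∈ s, (ι l' (r l) - ι l (r l))) • δ l' (r a • b')) -
          (toGen ι a (r a) : B) •
            (fun l' => (∏ l ∈ s, (ι l' (r l) - ι l (r l))) • δ l' b') -
          D ((∏ l ∈ s, r l) • r a • b') =
          ((fun l' => (∏ l ∈ s, (ι l' (r l) - ι l (r l))) • δ l' (r a • b')) -
            D ((∏ l ∈ s, r l) • r a • b')) -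
          (toGen ι a (r a) : B) •
            (fun l' => (∏ l ∈ s, (ι l' (r l) - ι l (r l))) • δ l' b') := by
        abel
      rw [h8]
      exact Submodule.sub_mem _ h4 h6
  have hker : ∀ (χ : B →ₐ[k] k) (y : M),
      y ∈ (∏ l, RingHom.ker (χ.comp (toGen ι l)) : Ideal R) • (⊤ : Submodule R M) →
      D y ∈ (RingHom.ker χ) • N1 := by
    intro χ y hy
    refine prod_smul_induction (p := fun y => D y ∈ (RingHom.ker χ) • N1) Finset.univ _ ?_ ?_ ?_ hy
    · rw [map_zero]
      exact Submodule.zero_mem _
    · intro x y hx hy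
      rw [map_add]
      exact Submodule.add_mem _ hx hy
    · intro r hr b'
      obtain ⟨-, h2⟩ := hexp χ Finset.univ r (fun l hl => hr l hl) b'
      have h3 : (fun l' => (∏ l, (ι l' (r l) - ι l (r l))) • δ l' b') = 0 := by
        funext l'
        rw [Finset.prod_eq_zero (Finset.mem_univ l') (sub_self _), zero_smul]
        rfl
      rw [h3, zero_sub] at h2
      exact (Submodule.neg_mem_iff _).1 h2
  have key : N1 ≤ N2 := by
    refine nak (k := k) hfg fun χ => Submodule.span_le.2 ?_
    rintro _ ⟨b', rfl⟩
    obtain ⟨γ, hγ, hy⟩ := hΓ (fun l => χ.comp (toGen ι l)) b'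
    have h1 : D b' = D γ + D (b' - γ) := by rw [map_sub]; abel
    rw [h1]
    exact Submodule.add_mem_sup (Submodule.subset_span ⟨γ, hγ, rfl⟩) (hker χ _ hy)
  have hb := key (hDmem b)
  rw [Submodule.mem_span_set'] at hb
  obtain ⟨T, f, g, hfg'⟩ := hb
  choose γ hγ1 hγ2 using fun t => (g t).2
  refine ⟨T, fun t => (f t : AA), γ, fun t => (f t).2, hγ1, fun l => ?_⟩
  rw [← hD b l, ← hfg', Finset.sum_apply]
  refine Finset.sum_congr rfl fun t _ => ?_
  rw [← hγ2 t]
  rfl

end

end Pool.Agent.MPd118f9
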