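import Pool.Agent.Lib.MP_d118f9_ag.Defs

/-!
# MP_d118f9_ag, block N, module NC: antisymmetrisation and the Koszul homotopy
-/

set_option autoImplicit false

noncomputable section

namespace Pool.Agent.MPd118f9

section

variable {X M : Type} [AddCommGroup M]

/-- Antisymmetrisation (without division). -/
def altz {m : ℕ} (c : (Fin m → X) → M) (J : Fin m → X) : M :=
  ∑ σ : Equiv.Perm (Fin m), ((Equiv.Perm.sign σ : ℤˣ) : ℤ) • c (J ∘ σ)

theorem altz_alt {m : ℕ} (c : (Fin m → X) → M) : Alt (altz c) := by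
  intro τ J
  unfold altz
  rw [Finset.smul_sum]
  rw [← Equiv.sum_comp (Equiv.mulLeft τ)
    (fun σ => ((Equiv.Perm.sign τ : ℤˣ) : ℤ) • ((Equiv.Perm.sign σ : ℤˣ) : ℤ) • c (J ∘ σ))]
  refine Finset.sum_congr rfl fun σ _ => ?_
  rw [smul_smul]
  have h1 : ((Equiv.Perm.sign τ : ℤˣ) : ℤ) *
      ((Equiv.Perm.sign ((Equiv.mulLeft τ) σ) : ℤˣ) : ℤ) = ((Equiv.Perm.sign σ : ℤˣ) : ℤ) := by
    rw [Equiv.coe_mulLeft, Equiv.Perm.sign_mul, Units.val_mul, ← mul_assoc,
      Int.units_coe_mul_self, one_mul]
  rw [h1]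
  rfl

theorem altz_of_alt {m : ℕ} {c : (Fin m → X) → M} (hc : Alt c) (J : Fin m → X) :
    altz c J = m.factorial • c J := by
  unfold altz
  have h1 : ∀ σ : Equiv.Perm (Fin m),
      ((Equiv.Perm.sign σ : ℤˣ) : ℤ) • c (J ∘ σ) = c J := by
    intro σ
    rw [hc σ J, smul_smul, Int.units_coe_mul_self, one_smul]
  rw [Finset.sum_congr rfl fun σ _ => h1 σ, Finset.sum_const, Finset.card_univ,
    Fintype.card_perm, Fintype.card_fin]

theorem altz_add {m : ℕ} (c d : (Fin m → X) → M) : altz (c + d) = altz c + altz d := by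
  funext J
  unfold altz
  rw [Pi.add_apply, ← Finset.sum_add_distrib]
  refine Finset.sum_congr rfl fun σ _ => ?_
  rw [Pi.add_apply, smul_add]

theorem altz_sum {m : ℕ} {T : Type} (s : Finset T) (c : T → (Fin m → X) → M) (J : Fin m → X) :
    altz (fun I => ∑ t ∈ s, c t I) J = ∑ t ∈ s, altz (c t) J := by
  unfold altz
  rw [Finset.sum_comm]
  refine Finset.sum_congr rfl fun σ _ => ?_
  rw [Finset.smul_sum]

end

section

variable {X A : Type} [Fintype X] [CommRing A]

/-- All slot contractions of `z` with `e` are zero. -/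
def SC {m : ℕ} (e : X → A) (z : (Fin m → X) → A) : Prop :=
  ∀ l J, ∑ j, e j * z (Function.update J l j) = 0

/-- The Koszul homotopy: if all slot contractions of `z` are zero and `v` is an element with
`e(v) = 1` on the values of `z`, then the antisymmetrisation of `z` is a boundary. -/
theorem homotopy {m : ℕ} {e : X → A} {z : (Fin m → X) → A} (hz : SC e z) (v : X → A)
    (hv : ∀ J, (∑ j, e j * v j) * z J = z J) :
    ∃ b : (Fin (m + 1) → X) → A, Alt b ∧ ∀ J, ∑ j, e j * b (Fin.cons j J) = altz z J := by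
  refine ⟨altz fun J => v (J 0) * z (Fin.tail J), altz_alt _, fun J => ?_⟩
  have h1 : ∀ j, altz (fun J : Fin (m + 1) → X => v (J 0) * z (Fin.tail J)) (Fin.cons j J) =
      ∑ p : Fin (m + 1) × Equiv.Perm (Fin m),
        ((Equiv.Perm.sign (Equiv.Perm.decomposeFin.symm p) : ℤˣ) : ℤ) •
          (v ((Fin.cons j J : Fin (m + 1) → X) (Equiv.Perm.decomposeFin.symm p 0)) *
            z (fun x => (Fin.cons j J : Fin (m + 1) → X)
              (Equiv.Perm.decomposeFin.symm p x.succ))) := by
    intro j
    unfold altz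
    rw [← Equiv.sum_comp Equiv.Perm.decomposeFin.symm]
    rfl
  simp only [h1, Finset.mul_sum]
  rw [Finset.sum_comm, Fintype.sum_prod_type, Finset.sum_eq_single 0]
  · unfold altz
    refine Finset.sum_congr rfl fun σ _ => ?_
    have h2 : ∀ j, e j * (((Equiv.Perm.sign (Equiv.Perm.decomposeFin.symm (0, σ)) : ℤˣ) : ℤ) •
          (v ((Fin.cons j J : Fin (m + 1) → X) (Equiv.Perm.decomposeFin.symm (0, σ) 0)) *
            z (fun x => (Fin.cons j J : Fin (m + 1) → X)
              (Equiv.Perm.decomposeFin.symm (0, σ) x.succ)))) =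
        ((Equiv.Perm.sign σ : ℤˣ) : ℤ) • ((e j * v j) * z (J ∘ σ)) := by
      intro j
      have h3 : (fun x => (Fin.cons j J : Fin (m + 1) → X)
              (Equiv.Perm.decomposeFin.symm (0, σ) x.succ)) = J ∘ σ := by
        funext x
        rw [Equiv.Perm.decomposeFin_symm_apply_succ, Equiv.swap_self, Equiv.refl_apply,
          Fin.cons_succ]
        rfl
      rw [Equiv.Perm.decomposeFin_symm_apply_zero, h3, Fin.cons_zero,
        Equiv.Perm.decomposeFin.symm_sign, if_pos rfl, one_mul, mul_smul_comm, mul_assoc]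
    rw [Finset.sum_congr rfl fun j _ => h2 j, ← Finset.smul_sum, ← Finset.sum_mul, hv]
  · intro p _ hp
    refine Finset.sum_eq_zero fun σ _ => ?_
    obtain ⟨q, hq⟩ := Fin.exists_succ_eq_of_ne_zero
      (x := (Equiv.Perm.decomposeFin.symm (p, σ)).symm 0) (by
        intro h
        rw [Equiv.symm_apply_eq, Equiv.Perm.decomposeFin_symm_apply_zero] at h
        exact hp h.symm)
    have hq' : Equiv.Perm.decomposeFin.symm (p, σ) q.succ = 0 := by
      rw [hq, Equiv.apply_symm_apply]
    obtain ⟨p', rfl⟩ := Fin.exists_succ_eq_of_ne_zero hp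
    by_cases hX : Nonempty X
    · obtain ⟨j0⟩ := hX
      have h2 : ∀ j, (fun x : Fin m => (Fin.cons j J : Fin (m + 1) → X)
              (Equiv.Perm.decomposeFin.symm (p'.succ, σ) x.succ)) =
          Function.update (fun x : Fin m => (Fin.cons j0 J : Fin (m + 1) → X)
              (Equiv.Perm.decomposeFin.symm (p'.succ, σ) x.succ)) q j := by
        intro j
        funext x
        by_cases hx : x = q
        · subst hx
          rw [Function.update_self, hq', Fin.cons_zero]
        · rw [Function.update_of_ne hx]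
          have h3 : Equiv.Perm.decomposeFin.symm (p'.succ, σ) x.succ ≠ 0 := by
            intro h
            rw [← hq'] at h
            exact hx (Fin.succ_injective _ ((Equiv.injective _) h))
          obtain ⟨y, hy⟩ := Fin.exists_succ_eq_of_ne_zero h3
          rw [← hy, Fin.cons_succ, Fin.cons_succ]
      have h4 : ∀ j, e j *
          (((Equiv.Perm.sign (Equiv.Perm.decomposeFin.symm (p'.succ, σ)) : ℤˣ) : ℤ) •
          (v ((Fin.cons j J : Fin (m + 1) → X)
              (Equiv.Perm.decomposeFin.symm (p'.succ, σ) 0)) *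
            z (fun x => (Fin.cons j J : Fin (m + 1) → X)
              (Equiv.Perm.decomposeFin.symm (p'.succ, σ) x.succ)))) =
          (((Equiv.Perm.sign (Equiv.Perm.decomposeFin.symm (p'.succ, σ)) : ℤˣ) : ℤ) • v (J p')) *
            (e j * z (Function.update (fun x : Fin m => (Fin.cons j0 J : Fin (m + 1) → X)
              (Equiv.Perm.decomposeFin.symm (p'.succ, σ) x.succ)) q j)) := by
        intro j
        rw [h2 j, Equiv.Perm.decomposeFin_symm_apply_zero, Fin.cons_succ]
        simp only [zsmul_eq_mul]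
        ring
      rw [Finset.sum_congr rfl fun j _ => h4 j, ← Finset.mul_sum, hz, mul_zero]
    · exact Finset.sum_eq_zero fun j _ => absurd ⟨j⟩ hX
  · intro h
    exact absurd (Finset.mem_univ _) h

end

end Pool.Agent.MPd118f9
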