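import Pool.Agent.Lib.MP_d118f9_ag.NB
import Pool.Agent.Lib.MP_d118f9_ag.NC

/-!
# MP_d118f9_ag, block N, module ND: the slot lemma
-/

set_option autoImplicit false

noncomputable section

open scoped TensorProduct

namespace Pool.Agent.MPd118f9

section

variable {k O X : Type} [Field k] [CommRing O] [Algebra k O] [Fintype X] {m : ℕ}

/-- The value of `e : k^X → O`. -/
def ev (e : X → O) : (X → k) →ₗ[k] O := Fintype.linearCombination k e

theorem ev_apply (e : X → O) (v : X → k) : ev e v = ∑ j, v j • e j := by
  rw [ev, Fintype.linearCombination_apply]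

/-- Slotwise maps from the tensor power to functions of `m` indices. -/
def slotT (g : Fin m → O →ₗ[k] (X → k)) (J : Fin m → X) : (⨂[k] _ : Fin m, O) →ₗ[k] k :=
  PiTensorProduct.lift ((MultilinearMap.mkPiAlgebra k (Fin m) k).compLinearMap
    fun l => (LinearMap.proj (J l)).comp (g l))

omit [Fintype X] in
theorem slotT_tprod (g : Fin m → O →ₗ[k] (X → k)) (J : Fin m → X) (o : Fin m → O) :
    slotT g J (PiTensorProduct.tprod k o) = ∏ l, g l (o l) (J l) := by
  simp [slotT]

/-- The same with one slot left in `O`. -/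
def slotP (g : Fin m → O →ₗ[k] (X → k)) (l : Fin m) (J : Fin m → X) :
    (⨂[k] _ : Fin m, O) →ₗ[k] O :=
  PiTensorProduct.lift ((MultilinearMap.mkPiAlgebra k (Fin m) O).compLinearMap
    fun l' => if l' = l then LinearMap.id else
      (Algebra.linearMap k O).comp ((LinearMap.proj (J l')).comp (g l')))

omit [Fintype X] in
theorem slotP_tprod (g : Fin m → O →ₗ[k] (X → k)) (l : Fin m) (J : Fin m → X) (o : Fin m → O) :
    slotP g l J (PiTensorProduct.tprod k o) =
      (∏ l' ∈ Finset.univ.erase l, g l' (o l') (J l')) • o l := by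
  rw [slotP, PiTensorProduct.lift.tprod, MultilinearMap.compLinearMap_apply,
    MultilinearMap.mkPiAlgebra_apply, ← Finset.mul_prod_erase _ _ (Finset.mem_univ l),
    if_pos rfl, Algebra.smul_def, map_prod, mul_comm]
  refine congrArg₂ _ (Finset.prod_congr rfl fun l' hl' => ?_) rfl
  rw [if_neg (Finset.ne_of_mem_erase hl')]
  rfl

omit [Fintype X] in
theorem slotP_mul (g : Fin m → O →ₗ[k] (X → k)) (l : Fin m) (J : Fin m → X)
    (H : ⨂[k] _ : Fin m, O) (r : O) :
    slotP g l J (H * PiTensorProduct.singleAlgHom (R := k) (A := fun _ : Fin m => O) l r) =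
      slotP g l J H * r := by
  induction H using PiTensorProduct.induction_on with
  | smul_tprod c o =>
    have h1 : PiTensorProduct.singleAlgHom (R := k) (A := fun _ : Fin m => O) l r =
        PiTensorProduct.tprod k (Pi.mulSingle l r) := by
      rfl
    rw [h1, smul_mul_assoc, PiTensorProduct.tprod_mul_tprod, map_smul, map_smul, slotP_tprod,
      slotP_tprod, Pi.mul_apply, Pi.mulSingle_eq_same, smul_mul_assoc, smul_mul_assoc]
    congr 2
    refine Finset.prod_congr rfl fun l' hl' => ?_
    rw [Pi.mul_apply, Pi.mulSingle_eq_of_ne (Finset.ne_of_mem_erase hl'), mul_one]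
  | add x y hx hy => rw [add_mul, map_add, map_add, hx, hy, add_mul]

omit [Fintype X] in
theorem slotP_one (g : Fin m → O →ₗ[k] (X → k)) (l : Fin m) (J : Fin m → X) :
    slotP g l J 1 = (∏ l' ∈ Finset.univ.erase l, g l' 1 (J l')) • (1 : O) := by
  rw [PiTensorProduct.one_def, slotP_tprod]
  rfl

theorem slot_I {e : X → O} {I : Ideal O} (g : Fin m → O →ₗ[k] (X → k)) (l : Fin m) (E : O)
    (hg : ∀ o, ev e (g l o) - o * E ∈ I) (J : Fin m → X) (H : ⨂[k] _ : Fin m, O) :
    ∑ j, slotT g (Function.update J l j) H • e j -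
      slotP g l J (H * PiTensorProduct.singleAlgHom (R := k) (A := fun _ : Fin m => O) l E) ∈
      I := by
  rw [slotP_mul]
  induction H using PiTensorProduct.induction_on with
  | smul_tprod c o =>
    simp only [map_smul]
    rw [slotP_tprod]
    have h1 : ∀ j, (c • slotT g (Function.update J l j) (PiTensorProduct.tprod k o)) • e j =
        (c * ∏ l' ∈ Finset.univ.erase l, g l' (o l') (J l')) • (g l (o l) j • e j) := by
      intro j
      rw [slotT_tprod, ← Finset.mul_prod_erase _ _ (Finset.mem_univ l), Function.update_self,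
        smul_eq_mul, smul_smul]
      have h2 : ∏ l' ∈ Finset.univ.erase l, g l' (o l') (Function.update J l j l') =
          ∏ l' ∈ Finset.univ.erase l, g l' (o l') (J l') := by
        refine Finset.prod_congr rfl fun l' hl' => ?_
        rw [Function.update_of_ne (Finset.ne_of_mem_erase hl')]
      rw [h2]
      congr 1
      ring
    rw [Finset.sum_congr rfl fun j _ => h1 j, ← Finset.smul_sum, ← ev_apply, smul_mul_assoc,
      smul_mul_assoc, smul_smul, ← smul_sub, Algebra.smul_def]
    exact I.mul_mem_left _ (hg (o l))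
  | add x y hx hy =>
    simp only [map_add, add_smul, Finset.sum_add_distrib]
    have h1 : (∑ j, slotT g (Function.update J l j) x • e j) +
        (∑ j, slotT g (Function.update J l j) y • e j) -
        (slotP g l J x + slotP g l J y) * E =
        ((∑ j, slotT g (Function.update J l j) x • e j) - slotP g l J x * E) +
        ((∑ j, slotT g (Function.update J l j) y • e j) - slotP g l J y * E) := by
      ring
    rw [h1]
    exact I.add_mem hx hy

theorem slot_core {e : X → O} {I₁ I₂ : Ideal O} (hI : I₁ * I₂ = ⊥)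
    (g : Fin m → O →ₗ[k] (X → k)) (E : Fin m → O) (hg : ∀ l o, ev e (g l o) - o * E l ∈ I₁)
    {T : ℕ} {x : O} (hx : x ∈ I₂) (H : Fin T → ⨂[k] _ : Fin m, O) (u : Fin T → O)
    (hu : ∀ t, u t ∈ I₂)
    (hid : ∀ l, PiTensorProduct.singleAlgHom (R := k) (A := fun _ : Fin m => O) l x *
        PiTensorProduct.singleAlgHom (R := k) (A := fun _ : Fin m => O) l (E l) =
      ∑ t, H t * PiTensorProduct.singleAlgHom (R := k) (A := fun _ : Fin m => O) l (u t) *
        PiTensorProduct.singleAlgHom (R := k) (A := fun _ : Fin m => O) l (E l)) :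
    SC e (fun J => slotT g J 1 • x - ∑ t, slotT g J (H t) • u t) := by
  have hann : ∀ a ∈ I₁, ∀ b ∈ I₂, a * b = 0 := by
    intro a ha b hb
    have h1 : a * b ∈ I₁ * I₂ := Ideal.mul_mem_mul ha hb
    rwa [hI] at h1
  have hone : ∀ (l : Fin m) (J : Fin m → X) (G : ⨂[k] _ : Fin m, O) (y : O), y ∈ I₂ →
      ∑ j, e j * (slotT g (Function.update J l j) G • y) =
        slotP g l J (G * PiTensorProduct.singleAlgHom (R := k) (A := fun _ : Fin m => O) l y *
          PiTensorProduct.singleAlgHom (R := k) (A := fun _ : Fin m => O) l (E l)) := by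
    intro l J G y hy
    have h1 := hann _ (slot_I g l (E l) (hg l) J G) y hy
    rw [sub_mul, sub_eq_zero, Finset.sum_mul] at h1
    rw [slotP_mul] at h1
    rw [slotP_mul, slotP_mul]
    calc ∑ j, e j * (slotT g (Function.update J l j) G • y)
        = ∑ j, (slotT g (Function.update J l j) G • e j) * y := by
          refine Finset.sum_congr rfl fun j _ => ?_
          rw [mul_smul_comm, smul_mul_assoc]
      _ = slotP g l J G * E l * y := h1
      _ = slotP g l J G * y * E l := by ring
  intro l J
  have h2 : ∀ j, e j * (slotT g (Function.update J l j) 1 • x -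
      ∑ t, slotT g (Function.update J l j) (H t) • u t) =
      e j * (slotT g (Function.update J l j) 1 • x) -
      ∑ t, e j * (slotT g (Function.update J l j) (H t) • u t) := by
    intro j
    rw [mul_sub, Finset.mul_sum]
  rw [Finset.sum_congr rfl fun j _ => h2 j, Finset.sum_sub_distrib, Finset.sum_comm,
    hone l J 1 x hx, Finset.sum_congr rfl fun t _ => hone l J (H t) (u t) (hu t), ← map_sum,
    ← map_sub, one_mul, hid l, sub_self, map_zero]

end

end Pool.Agent.MPd118f9
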