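import Pool.Agent.Lib.MP_d118f9_ag.ND

/-!
# MP_d118f9_ag, block N, module NE: the slot lemma, second part
-/

set_option autoImplicit false

noncomputable section

open scoped TensorProduct

namespace Pool.Agent.MPd118f9

section

variable {k O X : Type} [Field k] [CommRing O] [Algebra k O] [Fintype X] {m : ℕ}

/-- The span of the functions `c u` with `u` in `e(V) ∩ I₂`. -/
def Dsub (m : ℕ) (e : X → O) (I₂ : Ideal O) : Submodule k ((Fin m → X) → O) :=
  Submodule.span k {f | ∃ v : X → k, ev e v ∈ I₂ ∧ ∃ c : (Fin m → X) → k,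
    f = fun J => c J • ev e v}

/-- The functions which are, up to `Dsub`, without slot contractions. -/
def Good (k : Type) [Field k] [Algebra k O] (e : X → O) (I₂ : Ideal O) (C : (Fin m → X) → O) :
    Prop :=
  ∃ D ∈ (Dsub m e I₂ : Submodule k ((Fin m → X) → O)), SC e (fun J => C J - D J)

theorem Good.add {e : X → O} {I₂ : Ideal O} {C C' : (Fin m → X) → O} (h : Good k e I₂ C)
    (h' : Good k e I₂ C') : Good k e I₂ (C + C') := by
  obtain ⟨D, hD, hz⟩ := h
  obtain ⟨D', hD', hz'⟩ := h'
  refine ⟨D + D', Submodule.add_mem _ hD hD', fun l J => ?_⟩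
  have h1 : ∀ j, e j * ((C + C') (Function.update J l j) - (D + D') (Function.update J l j)) =
      e j * (C (Function.update J l j) - D (Function.update J l j)) +
      e j * (C' (Function.update J l j) - D' (Function.update J l j)) := by
    intro j
    rw [Pi.add_apply, Pi.add_apply]
    ring
  rw [Finset.sum_congr rfl fun j _ => h1 j, Finset.sum_add_distrib, hz l J, hz' l J, add_zero]

theorem Good.zero (e : X → O) (I₂ : Ideal O) : Good k e I₂ (0 : (Fin m → X) → O) :=
  ⟨0, Submodule.zero_mem _, fun l J => by simp⟩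

theorem Good.sum {e : X → O} {I₂ : Ideal O} {T : Type} (s : Finset T)
    (C : T → (Fin m → X) → O) (h : ∀ t ∈ s, Good k e I₂ (C t)) :
    Good k e I₂ (∑ t ∈ s, C t) :=
  Finset.sum_induction C (Good k e I₂) (fun _ _ h h' => h.add h') (Good.zero e I₂) h

/-- The slot lemma for pure tensors. -/
theorem slot_exists [IsAlgClosed k] [Module.Finite k O] {e : X → O} {I₁ I₂ : Ideal O}
    (hI : I₁ * I₂ = ⊥) (τ : O →ₗ[k] (X → k)) (hτ : ∀ o, ev e (τ o) - o ∈ I₁)
    (h2 : ∀ s : Multiset (Ideal O), (∀ I ∈ s, I.IsMaximal) → Multiset.card s ≤ m →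
      ∀ x ∈ I₂, ∃ v : X → k, ev e v ∈ I₂ ∧ x - ev e v ∈ s.prod * I₂)
    {x : O} (hx : x ∈ I₂) (s : Finset (Fin m)) (v : Fin m → (X → k))
    (hv : ∀ l ∈ s, ev e (v l) ∈ I₁) :
    Good k e I₂ (fun J => (∏ l, (if l ∈ s then v l else τ (ev e (v l))) (J l)) • x) := by
  classical
  rcases subsingleton_or_nontrivial O with hO | hO
  · exact ⟨0, Submodule.zero_mem _, fun l J => Subsingleton.elim _ _⟩
  obtain ⟨ε, hε⟩ : ∃ ε : O →ₗ[k] k, ε 1 = 1 := by
    obtain ⟨f, hf⟩ := LinearMap.exists_leftInverse_of_injective (Algebra.linearMap k O)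
      (LinearMap.ker_eq_bot.2 (algebraMap k O).injective)
    refine ⟨f, ?_⟩
    have h1 := LinearMap.congr_fun hf 1
    rwa [LinearMap.comp_apply, Algebra.linearMap_apply, map_one] at h1
  let g : Fin m → O →ₗ[k] (X → k) := fun l =>
    if l ∈ s then ε.smulRight (v l) else τ.comp (LinearMap.mulRight k (ev e (v l)))
  let E : Fin m → O := fun l => if l ∈ s then 0 else ev e (v l)
  have hg : ∀ l o, ev e (g l o) - o * E l ∈ I₁ := by
    intro l o
    by_cases hl : l ∈ s
    · simp only [g, E, if_pos hl, mul_zero, sub_zero, LinearMap.smulRight_apply, map_smul]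
      rw [Algebra.smul_def]
      exact I₁.mul_mem_left _ (hv l hl)
    · simp only [g, E, if_neg hl]
      exact hτ _
  have hg1 : ∀ l, g l 1 = if l ∈ s then v l else τ (ev e (v l)) := by
    intro l
    by_cases hl : l ∈ s
    · simp only [g, if_pos hl, LinearMap.smulRight_apply, hε, one_smul]
    · simp only [g, if_neg hl]
      rw [LinearMap.comp_apply, LinearMap.mulRight_apply, one_mul]
  have hNR : IsNoetherianRing O := IsNoetherianRing.of_finite k O
  have hfin : Module.Finite O I₂ := Module.IsNoetherian.finite O I₂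
  let ι : {l // l ∉ s} → O →ₐ[k] (⨂[k] _ : Fin m, O) := fun l =>
    PiTensorProduct.singleAlgHom (R := k) (A := fun _ : Fin m => O) l.1
  let δ : ∀ _ : {l // l ∉ s}, I₂ →+ (⨂[k] _ : Fin m, O) := fun l =>
    ((ι l : O →+* (⨂[k] _ : Fin m, O)) : O →+ (⨂[k] _ : Fin m, O)).comp
      I₂.subtype.toAddMonoidHom
  obtain ⟨T, h, γ, -, hγ, hid⟩ := nch (M := I₂) (N := fun _ => (⨂[k] _ : Fin m, O)) ι δ (by
      intro l r b
      change ι l (r * (b : O)) = ι l r * ι l (b : O)
      rw [map_mul])
    {γ : I₂ | ∃ w : X → k, (γ : O) = ev e w} (by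
      intro χ b
      obtain ⟨w, hw1, hw2⟩ := h2 (Finset.univ.val.map fun l => RingHom.ker (χ l)) (by
          intro I hI'
          obtain ⟨l, -, rfl⟩ := Multiset.mem_map.1 hI'
          exact RingHom.ker_isMaximal_of_surjective _ fun c =>
            ⟨algebraMap k O c, by rw [AlgHom.commutes]; rfl⟩) (by
          rw [Multiset.card_map, Finset.card_val, Finset.card_univ]
          exact (Fintype.card_subtype_le _).trans (Fintype.card_fin m).le) b b.2
      refine ⟨⟨ev e w, hw1⟩, ⟨w, rfl⟩, ?_⟩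
      rw [Submodule.mem_smul_top_iff]
      exact hw2) ⟨x, hx⟩
  choose w hw using hγ
  refine ⟨fun J => ∑ t, slotT g J (h t) • (γ t : O), ?_, ?_⟩
  · have h1 : (fun J => ∑ t, slotT g J (h t) • (γ t : O)) =
        ∑ t, fun J => slotT g J (h t) • (γ t : O) := by
      funext J
      rw [Finset.sum_apply]
    rw [h1]
    refine Submodule.sum_mem _ fun t _ => Submodule.subset_span ⟨w t, ?_, fun J => slotT g J (h t),
      ?_⟩
    · rw [← hw t]
      exact (γ t).2
    · rw [← hw t]
  · have h1 := slot_core hI g E hg hx h (fun t => (γ t : O)) (fun t => (γ t).2) (by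
      intro l
      by_cases hl : l ∈ s
      · simp only [E, if_pos hl, map_zero, mul_zero, Finset.sum_const_zero]
      · rw [← Finset.sum_mul]
        congr 1
        exact hid ⟨l, hl⟩)
    have h2 : ∀ J, slotT g J 1 = ∏ l, (if l ∈ s then v l else τ (ev e (v l))) (J l) := by
      intro J
      rw [PiTensorProduct.one_def, slotT_tprod]
      refine Finset.prod_congr rfl fun l _ => ?_
      rw [Pi.one_apply, hg1 l]
    simp only [h2] at h1
    exact h1

/-- The slot lemma. -/
theorem slot_lemma [IsAlgClosed k] [Module.Finite k O] {e : X → O} {I₁ I₂ : Ideal O}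
    (hI : I₁ * I₂ = ⊥) (τ : O →ₗ[k] (X → k)) (hτ : ∀ o, ev e (τ o) - o ∈ I₁)
    (h2 : ∀ s : Multiset (Ideal O), (∀ I ∈ s, I.IsMaximal) → Multiset.card s ≤ m →
      ∀ x ∈ I₂, ∃ v : X → k, ev e v ∈ I₂ ∧ x - ev e v ∈ s.prod * I₂)
    (C : (Fin m → X) → O) (hC : ∀ J, C J ∈ I₂) : Good k e I₂ C := by
  classical
  let dl : X → (X → k) := fun x => Pi.single x 1
  let π₀ : (X → k) → (X → k) := fun v => v - τ (ev e v)
  have hπ : ∀ v, ev e (π₀ v) ∈ I₁ := by
    intro v
    have h1 : ev e (π₀ v) = -(ev e (τ (ev e v)) - ev e v) := by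
      rw [map_sub]
      ring
    rw [h1]
    exact I₁.neg_mem (hτ _)
  have h4 : ∀ a J : Fin m → X, ∑ s ∈ (Finset.univ : Finset (Fin m)).powerset,
      ∏ l, (if l ∈ s then π₀ (dl (a l)) else τ (ev e (dl (a l)))) (J l) =
      ∏ l, dl (a l) (J l) := by
    intro a J
    have h5 : ∀ l, dl (a l) (J l) = π₀ (dl (a l)) (J l) + τ (ev e (dl (a l))) (J l) := by
      intro l
      change _ = dl (a l) (J l) - τ (ev e (dl (a l))) (J l) + τ (ev e (dl (a l))) (J l)
      rw [sub_add_cancel]
    rw [Finset.prod_congr rfl fun l _ => h5 l, Finset.prod_add]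
    refine Finset.sum_congr rfl fun s _ => ?_
    have h6 : ∀ l, (if l ∈ s then π₀ (dl (a l)) else τ (ev e (dl (a l)))) (J l) =
        s.piecewise (fun l => π₀ (dl (a l)) (J l)) (fun l => τ (ev e (dl (a l))) (J l)) l := by
      intro l
      by_cases hl : l ∈ s
      · rw [if_pos hl, Finset.piecewise_eq_of_mem _ _ _ hl]
      · rw [if_neg hl, Finset.piecewise_eq_of_notMem _ _ _ hl]
    rw [Finset.prod_congr rfl fun l _ => h6 l, Finset.prod_piecewise, Finset.univ_inter]
  have h3 : C = ∑ a : Fin m → X, ∑ s ∈ (Finset.univ : Finset (Fin m)).powerset,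
      fun J => (∏ l, (if l ∈ s then π₀ (dl (a l)) else τ (ev e (dl (a l)))) (J l)) • C a := by
    funext J
    rw [Finset.sum_apply, Finset.sum_eq_single J]
    · rw [Finset.sum_apply, ← Finset.sum_smul, h4]
      have h5 : ∏ l, dl (J l) (J l) = 1 := Finset.prod_eq_one fun l _ => Pi.single_eq_same _ _
      rw [h5, one_smul]
    · intro a _ ha
      rw [Finset.sum_apply, ← Finset.sum_smul, h4]
      obtain ⟨l, hl⟩ := Function.ne_iff.1 ha
      have h5 : ∏ l, dl (a l) (J l) = 0 :=
        Finset.prod_eq_zero (Finset.mem_univ l) (Pi.single_eq_of_ne hl.symm _)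
      rw [h5, zero_smul]
    · intro h
      exact absurd (Finset.mem_univ J) h
  rw [h3]
  refine Good.sum _ _ fun a _ => Good.sum _ _ fun s _ => ?_
  have h5 := slot_exists hI τ hτ h2 (hC a) s
    (fun l => if l ∈ s then π₀ (dl (a l)) else dl (a l)) (by
      intro l hl
      simp only [if_pos hl]
      exact hπ _)
  have h6 : ∀ l, (if l ∈ s then (if l ∈ s then π₀ (dl (a l)) else dl (a l)) else
      τ (ev e (if l ∈ s then π₀ (dl (a l)) else dl (a l)))) =
      (if l ∈ s then π₀ (dl (a l)) else τ (ev e (dl (a l)))) := by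
    intro l
    by_cases hl : l ∈ s
    · simp only [if_pos hl]
    · simp only [if_neg hl]
  simp only [h6] at h5
  exact h5

end

end Pool.Agent.MPd118f9
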