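import Pool.Agent.Lib.MP_d118f9_ag.NE

/-!
# MP_d118f9_ag, block N, module NF: the finite lemma
-/

set_option autoImplicit false

noncomputable section

namespace Pool.Agent.MPd118f9

section

variable {k O X : Type} [Field k] [CommRing O] [Algebra k O] [Fintype X] {m : ℕ}

/-- A linear section of `e` modulo an ideal. -/
theorem exists_tau {e : X → O} {I : Ideal O} (h : ∀ o, ∃ v : X → k, o - ev e v ∈ I) :
    ∃ τ : O →ₗ[k] (X → k), ∀ o, ev e (τ o) - o ∈ I := by
  let f : (X → k) →ₗ[k] (O ⧸ I) := (Ideal.Quotient.mkₐ k I).toLinearMap.comp (ev e)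
  have hf : LinearMap.range f = ⊤ := by
    rw [LinearMap.range_eq_top]
    intro y
    obtain ⟨o, rfl⟩ := Ideal.Quotient.mk_surjective y
    obtain ⟨v, hv⟩ := h o
    refine ⟨v, ?_⟩
    change Ideal.Quotient.mk I (ev e v) = Ideal.Quotient.mk I o
    exact (Ideal.Quotient.eq.2 hv).symm
  obtain ⟨g, hg⟩ := f.exists_rightInverse_of_surjective hf
  refine ⟨g.comp (Ideal.Quotient.mkₐ k I).toLinearMap, fun o => ?_⟩
  have h1 := LinearMap.congr_fun hg (Ideal.Quotient.mk I o)
  exact Ideal.Quotient.eq.1 h1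

theorem altz_Dsub {e : X → O} {I₂ : Ideal O} {D : (Fin m → X) → O}
    (hD : D ∈ (Dsub m e I₂ : Submodule k ((Fin m → X) → O))) :
    ∃ c' : X → (Fin m → X) → k, (∀ j, Alt (c' j)) ∧ ∀ J, altz D J = ∑ j, c' j J • e j := by
  induction hD using Submodule.span_induction with
  | mem f hf =>
    obtain ⟨v, -, c, rfl⟩ := hf
    refine ⟨fun j J => altz c J * v j, fun j σ J => ?_, fun J => ?_⟩
    · change altz c (J ∘ σ) * v j = _ • (altz c J * v j)
      rw [altz_alt c σ J, smul_mul_assoc]
    · have h1 : altz (fun J => c J • ev e v) J = altz c J • ev e v := by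
        unfold altz
        rw [Finset.sum_smul]
        refine Finset.sum_congr rfl fun σ _ => ?_
        rw [smul_assoc]
      rw [h1, ev_apply, Finset.smul_sum]
      refine Finset.sum_congr rfl fun j _ => ?_
      rw [smul_smul]
  | zero =>
    refine ⟨fun _ _ => 0, fun j σ J => by rw [smul_zero], fun J => ?_⟩
    simp [altz]
  | add f g _ _ hf hg =>
    obtain ⟨c, hc, hc'⟩ := hf
    obtain ⟨d, hd, hd'⟩ := hg
    refine ⟨fun j J => c j J + d j J, fun j σ J => ?_, fun J => ?_⟩
    · change c j (J ∘ σ) + d j (J ∘ σ) = _ • (c j J + d j J)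
      rw [hc j σ J, hd j σ J, smul_add]
    · rw [altz_add, Pi.add_apply, hc', hd', ← Finset.sum_add_distrib]
      refine Finset.sum_congr rfl fun j _ => ?_
      rw [add_smul]
  | smul a f _ hf =>
    obtain ⟨c, hc, hc'⟩ := hf
    refine ⟨fun j J => a * c j J, fun j σ J => ?_, fun J => ?_⟩
    · change a * c j (J ∘ σ) = _ • (a * c j J)
      rw [hc j σ J, mul_smul_comm]
    · have h1 : altz (a • f) J = a • altz f J := by
        unfold altz
        rw [Finset.smul_sum]
        refine Finset.sum_congr rfl fun σ _ => ?_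
        rw [Pi.smul_apply, smul_comm]
      rw [h1, hc', Finset.smul_sum]
      refine Finset.sum_congr rfl fun j _ => ?_
      rw [smul_smul]

theorem Dsub_mem {e : X → O} {I₂ : Ideal O} {D : (Fin m → X) → O}
    (hD : D ∈ (Dsub m e I₂ : Submodule k ((Fin m → X) → O))) (J : Fin m → X) : D J ∈ I₂ := by
  induction hD using Submodule.span_induction with
  | mem f hf =>
    obtain ⟨v, hv, c, rfl⟩ := hf
    change c J • ev e v ∈ I₂
    rw [Algebra.smul_def]
    exact I₂.mul_mem_left _ hv
  | zero => exact I₂.zero_mem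
  | add f g _ _ hf hg => exact I₂.add_mem hf hg
  | smul a f _ hf =>
    change a • f J ∈ I₂
    rw [Algebra.smul_def]
    exact I₂.mul_mem_left _ hf

/-- The finite lemma (Green and Lazarsfeld: `2 r + 1 - p` points in general position, for arbitrary
finite schemes). -/
theorem finite_lemma [IsAlgClosed k] [CharZero k] [Module.Finite k O] (e : X → O) {K n : ℕ}
    (H1 : ∀ s : Multiset (Ideal O), (∀ I ∈ s, I.IsMaximal) → Multiset.card s ≤ K →
      ∀ o, ∃ v : X → k, o - ev e v ∈ s.prod)
    (s : Multiset (Ideal O)) (hs : ∀ I ∈ s, I.IsMaximal) (hn : Multiset.card s = n)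
    (hprod : s.prod = ⊥) (hnm : n + m ≤ 2 * K) (c : (Fin m → X) → O) (hc : Alt c) :
    ∃ c' : X → (Fin m → X) → k, (∀ j, Alt (c' j)) ∧ ∃ b : (Fin (m + 1) → X) → O, Alt b ∧
      ∀ J, c J = ∑ j, c' j J • e j + ∑ j, e j * b (Fin.cons j J) := by
  classical
  have halt : ∀ (τ : O →ₗ[k] (X → k)) (j : X), Alt fun J => τ (c J) j := by
    intro τ j σ J
    change τ (c (J ∘ σ)) j = _ • τ (c J) j
    rw [hc σ J, map_zsmul, Pi.smul_apply]
  by_cases hnK : n ≤ K
  · obtain ⟨τ, hτ⟩ := exists_tau (H1 s hs (hn.trans_le hnK))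
    refine ⟨fun j J => τ (c J) j, halt τ, fun _ => 0, fun σ J => by rw [smul_zero], fun J => ?_⟩
    have h1 := hτ (c J)
    rw [hprod, Ideal.mem_bot, sub_eq_zero, ev_apply] at h1
    simp only [mul_zero, Finset.sum_const_zero, add_zero]
    exact h1.symm
  · obtain ⟨s₁, s₂, rfl, hs₁⟩ : ∃ s₁ s₂ : Multiset (Ideal O), s = s₁ + s₂ ∧
        Multiset.card s₁ = K := by
      induction s using Quotient.inductionOn with
      | _ l =>
        refine ⟨(l.take K : List (Ideal O)), (l.drop K : List (Ideal O)), ?_, ?_⟩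
        · rw [Multiset.coe_add, List.take_append_drop]
          rfl
        · rw [Multiset.coe_card, List.length_take]
          have h1 : l.length = n := hn
          omega
    have hm₁ : ∀ I ∈ s₁, I.IsMaximal := fun I hI => hs I (Multiset.mem_add.2 (Or.inl hI))
    have hm₂ : ∀ I ∈ s₂, I.IsMaximal := fun I hI => hs I (Multiset.mem_add.2 (Or.inr hI))
    have hs₂ : Multiset.card s₂ + m ≤ K := by
      rw [Multiset.card_add] at hn
      omega
    obtain ⟨τ₁, hτ₁⟩ := exists_tau (H1 s₁ hm₁ hs₁.le)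
    obtain ⟨τ₂, hτ₂⟩ := exists_tau (H1 s₂ hm₂ (by omega))
    have hI : s₁.prod * s₂.prod = ⊥ := by rw [← Multiset.prod_add, hprod]
    have h2 : ∀ t : Multiset (Ideal O), (∀ I ∈ t, I.IsMaximal) → Multiset.card t ≤ m →
        ∀ x ∈ s₂.prod, ∃ v : X → k, ev e v ∈ s₂.prod ∧ x - ev e v ∈ t.prod * s₂.prod := by
      intro t ht htm x hx
      obtain ⟨v, hv⟩ := H1 (t + s₂) (by
          intro I hI'
          rcases Multiset.mem_add.1 hI' with h | h
          · exact ht I h
          · exact hm₂ I h) (by rw [Multiset.card_add]; omega) x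
      rw [Multiset.prod_add] at hv
      refine ⟨v, ?_, hv⟩
      have h3 := s₂.prod.sub_mem hx (Ideal.mul_le_right hv)
      rwa [sub_sub_cancel] at h3
    obtain ⟨D, hD, hz⟩ := slot_lemma hI τ₁ hτ₁ h2 (fun J => c J - ev e (τ₂ (c J))) (by
      intro J
      have h3 := s₂.prod.neg_mem (hτ₂ (c J))
      rwa [neg_sub] at h3)
    have hzI : ∀ J, c J - ev e (τ₂ (c J)) - D J ∈ s₂.prod := by
      intro J
      refine Ideal.sub_mem _ ?_ (Dsub_mem hD J)
      have h3 := s₂.prod.neg_mem (hτ₂ (c J))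
      rwa [neg_sub] at h3
    obtain ⟨b, hb, hb'⟩ := homotopy hz (fun j => algebraMap k O (τ₁ 1 j)) (by
      intro J
      have h3 : ∑ j, e j * algebraMap k O (τ₁ 1 j) = ev e (τ₁ 1) := by
        rw [ev_apply]
        refine Finset.sum_congr rfl fun j _ => ?_
        rw [Algebra.smul_def, mul_comm]
      have h4 : (ev e (τ₁ 1) - 1) * (c J - ev e (τ₂ (c J)) - D J) ∈ s₁.prod * s₂.prod :=
        Ideal.mul_mem_mul (hτ₁ 1) (hzI J)
      rw [hI, Ideal.mem_bot, sub_mul, one_mul, sub_eq_zero] at h4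
      rw [h3]
      exact h4)
    obtain ⟨d, hd, hd'⟩ := altz_Dsub hD
    have hfac : (m.factorial : k) ≠ 0 := Nat.cast_ne_zero.2 m.factorial_ne_zero
    refine ⟨fun j J => τ₂ (c J) j + (m.factorial : k)⁻¹ * d j J, ?_,
      fun J => (m.factorial : k)⁻¹ • b J, ?_, fun J => ?_⟩
    · intro j σ J
      have h3 := halt τ₂ j σ J
      simp only at h3
      simp only [h3, hd j σ J, smul_add, mul_smul_comm]
    · intro σ J
      simp only [hb σ J]
      rw [smul_comm]
    · have h3 : altz (fun J => c J - ev e (τ₂ (c J)) - D J) J + altz D J =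
          m.factorial • (c J - ev e (τ₂ (c J))) := by
        rw [← Pi.add_apply, ← altz_add]
        have h4 : ((fun J => c J - ev e (τ₂ (c J)) - D J) + D) =
            fun J => c J - ev e (τ₂ (c J)) := by
          funext I
          rw [Pi.add_apply, sub_add_cancel]
        rw [h4]
        refine altz_of_alt (c := fun J => c J - ev e (τ₂ (c J))) ?_ J
        intro σ I
        simp only [hc σ I, map_zsmul, smul_sub]
      have h5 : c J - ev e (τ₂ (c J)) = (m.factorial : k)⁻¹ •
          ((∑ j, e j * b (Fin.cons j J)) + ∑ j, d j J • e j) := by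
        rw [hb', ← hd', h3, ← Nat.cast_smul_eq_nsmul k, smul_smul, inv_mul_cancel₀ hfac, one_smul]
      have h6 : c J = ev e (τ₂ (c J)) + (m.factorial : k)⁻¹ •
          ((∑ j, e j * b (Fin.cons j J)) + ∑ j, d j J • e j) := by
        rw [← h5]
        ring
      rw [h6, ev_apply, smul_add, Finset.smul_sum, Finset.smul_sum]
      simp only [add_smul, Finset.sum_add_distrib, mul_smul_comm, smul_smul]
      rw [add_assoc, add_comm (∑ j, (m.factorial : k)⁻¹ • (e j * b (Fin.cons j J)))]

end

end Pool.Agent.MPd118f9
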