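import Pool.Agent.Lib.MP_d118f9_ag.NF

/-!
# MP_d118f9_ag, block N, module NG: preparations for the output of block N
-/

set_option autoImplicit false

noncomputable section

namespace Pool.Agent.MPd118f9

section

variable {k B : Type} [Field k] [IsAlgClosed k] [CommRing B] [Algebra k B]
  [Algebra.FiniteType k B]

/-- The quotient by a product of maximal ideals has finite dimension. -/
theorem finite_quot (l : List (Ideal B)) (hl : ∀ I ∈ l, I.IsMaximal) :
    Module.Finite k (B ⧸ l.prod) := by
  have hN : IsNoetherianRing B := Algebra.FiniteType.isNoetherianRing k B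
  have key : ∀ l : List (Ideal B), (∀ I ∈ l, I.IsMaximal) → ∃ V : Submodule k B, V.FG ∧
      ∀ x, ∃ v ∈ V, x - v ∈ l.prod := by
    intro l
    induction l with
    | nil =>
      intro _
      refine ⟨⊥, Submodule.fg_bot, fun x => ⟨0, Submodule.zero_mem _, ?_⟩⟩
      rw [List.prod_nil, Ideal.one_eq_top]
      trivial
    | cons m l ih =>
      intro hl
      obtain ⟨V, hV, hV'⟩ := ih fun I hI => hl I (List.mem_cons_of_mem m hI)
      obtain ⟨χ, hχ⟩ := exists_char (k := k) m (hl m List.mem_cons_self)
      obtain ⟨S, hS⟩ := (IsNoetherian.noetherian l.prod : l.prod.FG)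
      refine ⟨V ⊔ Submodule.span k (S : Set B), hV.sup (Submodule.fg_span S.finite_toSet),
        fun x => ?_⟩
      obtain ⟨v, hv, hxv⟩ := hV' x
      have h1 : ∀ y ∈ Submodule.span B (S : Set B),
          ∃ u ∈ Submodule.span k (S : Set B), y - u ∈ m * l.prod := by
        intro y hy
        induction hy using Submodule.span_induction with
        | mem y hy => exact ⟨y, Submodule.subset_span hy, by rw [sub_self]; exact zero_mem _⟩
        | zero => exact ⟨0, Submodule.zero_mem _, by rw [sub_self]; exact zero_mem _⟩
        | add y z _ _ hy hz =>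
          obtain ⟨u, hu, hu'⟩ := hy
          obtain ⟨u', hu2, hu2'⟩ := hz
          refine ⟨u + u', Submodule.add_mem _ hu hu2, ?_⟩
          rw [add_sub_add_comm]
          exact Ideal.add_mem _ hu' hu2'
        | smul r y hy hy' =>
          obtain ⟨u, hu, hu'⟩ := hy'
          refine ⟨χ r • u, Submodule.smul_mem _ _ hu, ?_⟩
          have h2 : r • y - χ r • u = (r - algebraMap k B (χ r)) * y +
              algebraMap k B (χ r) * (y - u) := by
            rw [smul_eq_mul, Algebra.smul_def]
            ring
          rw [h2]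
          refine Ideal.add_mem _ (Ideal.mul_mem_mul ?_ ?_) (Ideal.mul_mem_left _ _ hu')
          · rw [← hχ, RingHom.mem_ker, map_sub, AlgHom.commutes]
            exact sub_self _
          · rw [← hS]
            exact hy
      rw [← hS] at hxv
      obtain ⟨u, hu, hu'⟩ := h1 _ hxv
      refine ⟨v + u, Submodule.add_mem_sup hv hu, ?_⟩
      rw [List.prod_cons, ← sub_sub]
      exact hu'
  obtain ⟨V, hV, hV'⟩ := key l hl
  have hVfin : Module.Finite k V := Module.Finite.iff_fg.2 hV
  refine Module.Finite.of_surjective
    ((Ideal.Quotient.mkₐ k l.prod).toLinearMap.comp V.subtype) ?_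
  intro y
  obtain ⟨x, rfl⟩ := Ideal.Quotient.mk_surjective y
  obtain ⟨v, hv, hxv⟩ := hV' x
  exact ⟨⟨v, hv⟩, (Ideal.Quotient.eq.2 hxv).symm⟩

end

section

variable {k F : Type} [Field k] [Field F] [Algebra k F] {h m : ℕ}

/-- The module of the alternating functions with values in `b`. -/
def altSub (m h : ℕ) (R : Subalgebra k F) (b : Submodule R F) :
    Submodule R ((Fin m → Fin h) → F) where
  carrier := {c | Alt c ∧ ∀ J, c J ∈ b}
  zero_mem' := ⟨fun σ J => by simp, fun J => b.zero_mem⟩
  add_mem' := by
    rintro c d ⟨hc, hc'⟩ ⟨hd, hd'⟩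
    refine ⟨fun σ J => ?_, fun J => b.add_mem (hc' J) (hd' J)⟩
    rw [Pi.add_apply, Pi.add_apply, hc σ J, hd σ J, smul_add]
  smul_mem' := by
    rintro r c ⟨hc, hc'⟩
    refine ⟨fun σ J => ?_, fun J => b.smul_mem r (hc' J)⟩
    rw [Pi.smul_apply, Pi.smul_apply, hc σ J, smul_comm]

theorem altSub_fg (R : Subalgebra k F) [IsNoetherianRing R] (b : Submodule R F) (hb : b.FG) :
    (altSub m h R b).FG := by
  have hbf : Module.Finite R b := Module.Finite.iff_fg.2 hb
  let f : ((Fin m → Fin h) → b) →ₗ[R] ((Fin m → Fin h) → F) :=
    b.subtype.compLeft (Fin m → Fin h)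
  have h1 : (LinearMap.range f).FG := Module.Finite.iff_fg.1 inferInstance
  refine Submodule.FG.of_le h1 ?_
  rintro c ⟨-, hc⟩
  exact ⟨fun J => ⟨c J, hc J⟩, rfl⟩

theorem altz_smul' {R : Subalgebra k F} (r : R) (f : (Fin m → Fin h) → F) (J : Fin m → Fin h) :
    altz (fun I => r • f I) J = r • altz f J := by
  unfold altz
  rw [Finset.smul_sum]
  refine Finset.sum_congr rfl fun σ _ => ?_
  rw [smul_comm]

/-- Alternating functions with values in `I b` are in `I` times the alternating functions with
values in `b`. -/
theorem mem_smul_altSub [CharZero k] (R : Subalgebra k F) (b : Submodule R F) (I : Ideal R)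
    {c : (Fin m → Fin h) → F} (hc : Alt c) (hcI : ∀ J, c J ∈ I • b) :
    c ∈ I • altSub m h R b := by
  classical
  have hfac : (m.factorial : k) ≠ 0 := Nat.cast_ne_zero.2 m.factorial_ne_zero
  have h1 : ∀ (J : Fin m → Fin h) (x : F), x ∈ I • b →
      altz (fun I' => if I' = J then x else 0) ∈ I • altSub m h R b := by
    intro J x hx
    induction hx using Submodule.smul_induction_on' with
    | smul r hr y hy =>
      have h2 : (altz fun I' => if I' = J then r • y else 0) =
          r • altz (fun I' => if I' = J then y else 0) := by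
        funext L
        rw [Pi.smul_apply, ← altz_smul']
        congr 1
        funext I'
        split_ifs
        · rfl
        · rw [smul_zero]
      rw [h2]
      refine Submodule.smul_mem_smul hr ⟨altz_alt _, fun L => ?_⟩
      unfold altz
      refine Submodule.sum_mem _ fun σ _ => ?_
      refine zsmul_mem ?_ _
      simp only
      split_ifs
      · exact hy
      · exact b.zero_mem
    | add x _ y _ hx hy =>
      have h2 : (altz fun I' => if I' = J then x + y else 0) =
          altz (fun I' => if I' = J then x else 0) + altz (fun I' => if I' = J then y else 0) := by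
        rw [← altz_add]
        congr 1
        funext I'
        rw [Pi.add_apply]
        split_ifs
        · rfl
        · rw [add_zero]
      rw [h2]
      exact Submodule.add_mem _ hx hy
  have h3 : altz c = ∑ J, altz (fun I' => if I' = J then c J else 0) := by
    funext L
    rw [Finset.sum_apply, ← altz_sum]
    congr 1
    funext I'
    rw [Finset.sum_ite_eq, if_pos (Finset.mem_univ _)]
  have h4 : altz c ∈ I • altSub m h R b := by
    rw [h3]
    exact Submodule.sum_mem _ fun J _ => h1 J _ (hcI J)
  have h5 : c = (algebraMap k R (m.factorial : k)⁻¹) • altz c := by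
    funext J
    rw [Pi.smul_apply, altz_of_alt hc]
    change c J = (algebraMap k F (m.factorial : k)⁻¹) * (m.factorial • c J)
    rw [nsmul_eq_mul, ← mul_assoc, map_inv₀, map_natCast, inv_mul_cancel₀, one_mul]
    rw [← map_natCast (algebraMap k F)]
    exact (map_ne_zero _).2 hfac
  rw [h5]
  exact Submodule.smul_mem _ _ h4

/-- Alternating functions can be lifted. -/
theorem exists_lift_alt [CharZero k] {S O : Type} [CommRing S] [Algebra k S] [CommRing O]
    [Algebra k O] (f : S →ₐ[k] O) (hf : Function.Surjective f) {X : Type} {m : ℕ}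
    (c : (Fin m → X) → O) (hc : Alt c) : ∃ d : (Fin m → X) → S, Alt d ∧ ∀ J, f (d J) = c J := by
  have hfac : (m.factorial : k) ≠ 0 := Nat.cast_ne_zero.2 m.factorial_ne_zero
  choose g hg using hf
  refine ⟨fun J => (m.factorial : k)⁻¹ • altz (fun J => g (c J)) J, fun σ J => ?_, fun J => ?_⟩
  · change (m.factorial : k)⁻¹ • altz (fun J => g (c J)) (J ∘ σ) =
      _ • ((m.factorial : k)⁻¹ • altz (fun J => g (c J)) J)
    rw [altz_alt _ σ J, smul_comm]
  · rw [map_smul]
    have h1 : f (altz (fun J => g (c J)) J) = altz c J := by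
      unfold altz
      rw [map_sum]
      refine Finset.sum_congr rfl fun σ _ => ?_
      rw [map_zsmul, hg]
    rw [h1, altz_of_alt hc, ← Nat.cast_smul_eq_nsmul k, smul_smul, inv_mul_cancel₀ hfac, one_smul]

end

end Pool.Agent.MPd118f9
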