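import Pool.Agent.Lib.MP_d118f9_ag.NG

/-!
# MP_d118f9_ag, block N, module NH: the output of block N
-/

set_option autoImplicit false

noncomputable section

namespace Pool.Agent.MPd118f9

section

variable {k F : Type} [Field k] [IsAlgClosed k] [CharZero k] [Field F] [Algebra k F]
  {n m K h : ℕ}

theorem comap_prod_le {R O : Type} [CommRing R] [CommRing O] (f : R →+* O)
    (l : List (Ideal O)) : (l.map (Ideal.comap f)).prod ≤ Ideal.comap f l.prod := by
  induction l with
  | nil =>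
    rw [List.prod_nil, Ideal.one_eq_top, Ideal.comap_top]
    exact le_top
  | cons I l ih =>
    rw [List.map_cons, List.prod_cons, List.prod_cons]
    exact (Ideal.mul_mono_right ih).trans (Ideal.le_comap_mul f)

/-- The local statement: the hypothesis of the NCH lemma from the finite lemma. -/
theorem local_out (hnm : n + m ≤ 2 * K) (R : Subalgebra k F) (hR : Algebra.FiniteType k R)
    (bW : Submodule R F) (w : Fin h → F) (hw : ∀ j, w j ∈ bW)
    (h1 : ∀ j ≤ K, ∀ χ : Fin j → (R →ₐ[k] k), ∀ b ∈ bW, ∃ v : Fin h → k,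
      b - ∑ i, v i • w i ∈ (∏ l, RingHom.ker (χ l)) • bW)
    (χ : Fin n → (R →ₐ[k] k)) (b₀ : F) (hb₀ : b₀ ∈ bW)
    (hr : ∀ b ∈ bW, ∃ r : R, b - r • b₀ ∈ (∏ l, RingHom.ker (χ l)) • bW)
    (hinj : ∀ r : R, r • b₀ ∈ (∏ l, RingHom.ker (χ l)) • bW → r ∈ ∏ l, RingHom.ker (χ l))
    (c : (Fin m → Fin h) → F) (hc : Alt c) (hcb : ∀ J, c J ∈ bW) :
    ∃ (c' : Fin h → (Fin m → Fin h) → k) (b : (Fin (m + 1) → Fin h) → R),
      (∀ j, Alt (c' j)) ∧ Alt b ∧ ∀ J, c J - (∑ j, c' j J • w j +
        ∑ j, w j * (b (Fin.cons j J) : F)) ∈ (∏ l, RingHom.ker (χ l)) • bW := by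
  classical
  set I : Ideal R := ∏ l, RingHom.ker (χ l) with hI
  have hmax : ∀ {B : Type} [CommRing B] [Algebra k B] (χ' : B →ₐ[k] k),
      (RingHom.ker χ').IsMaximal := fun χ' =>
    RingHom.ker_isMaximal_of_surjective _ fun a =>
      ⟨algebraMap k _ a, by rw [AlgHom.commutes]; rfl⟩
  have hIl : I = (List.ofFn fun l => RingHom.ker (χ l)).prod := by
    rw [hI, List.prod_ofFn]
  have hfin : Module.Finite k (R ⧸ I) := by
    rw [hIl]
    refine finite_quot _ fun I' hI' => ?_
    obtain ⟨l, rfl⟩ := (List.mem_ofFn' _ _).1 hI'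
    exact hmax (χ l)
  have hIb : ∀ r ∈ I, r • b₀ ∈ I • bW := fun r hr => Submodule.smul_mem_smul hr hb₀
  choose! ρ hρ using hr
  -- elements of `J b`
  have hJ : ∀ (J : Ideal R) (b : F), b ∈ J • bW → ∃ r ∈ J, b - r • b₀ ∈ I • bW := by
    intro J b hb
    induction hb using Submodule.smul_induction_on' with
    | smul r hr y hy =>
      refine ⟨r * ρ y, J.mul_mem_right _ hr, ?_⟩
      rw [mul_smul, ← smul_sub]
      exact Submodule.smul_mem _ _ (hρ y hy)
    | add x _ y _ hx hy =>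
      obtain ⟨r, hr, hr'⟩ := hx
      obtain ⟨r', hr2, hr2'⟩ := hy
      refine ⟨r + r', J.add_mem hr hr2, ?_⟩
      rw [add_smul, add_sub_add_comm]
      exact Submodule.add_mem _ hr' hr2'
  let e : Fin h → R ⧸ I := fun j => Ideal.Quotient.mk I (ρ (w j))
  have hev : ∀ v : Fin h → k, ev e v = Ideal.Quotient.mk I (∑ j, v j • ρ (w j)) := by
    intro v
    rw [ev_apply, map_sum]
    refine Finset.sum_congr rfl fun j _ => ?_
    rfl
  have hwb : ∀ v : Fin h → k, (∑ j, v j • w j) - (∑ j, v j • ρ (w j)) • b₀ ∈ I • bW := by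
    intro v
    rw [Finset.sum_smul, ← Finset.sum_sub_distrib]
    refine Submodule.sum_mem _ fun j _ => ?_
    have h3 : v j • w j - (v j • ρ (w j)) • b₀ = (algebraMap k R (v j)) • (w j - ρ (w j) • b₀) := by
      rw [smul_sub, algebraMap_smul, algebraMap_smul, smul_assoc]
    rw [h3]
    exact Submodule.smul_mem _ _ (hρ _ (hw j))
  let c₁ : (Fin m → Fin h) → R ⧸ I := fun J => Ideal.Quotient.mk I (ρ (c J))
  have hc₁ : Alt c₁ := by
    intro σ J
    have h3 := hρ _ (hcb (J ∘ σ))
    have h4 := Submodule.smul_mem _ (((Equiv.Perm.sign σ : ℤˣ) : ℤ) : R) (hρ _ (hcb J))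
    have h5 := hinj (ρ (c (J ∘ σ)) - (((Equiv.Perm.sign σ : ℤˣ) : ℤ) : R) * ρ (c J)) (by
      have h6 : (ρ (c (J ∘ σ)) - (((Equiv.Perm.sign σ : ℤˣ) : ℤ) : R) * ρ (c J)) • b₀ =
          (((Equiv.Perm.sign σ : ℤˣ) : ℤ) : R) • (c J - ρ (c J) • b₀) -
          (c (J ∘ σ) - ρ (c (J ∘ σ)) • b₀) := by
        have h8 : (((Equiv.Perm.sign σ : ℤˣ) : ℤ) : R) • c J =
            ((Equiv.Perm.sign σ : ℤˣ) : ℤ) • c J := Int.cast_smul_eq_zsmul R _ _
        rw [smul_sub, sub_smul, mul_smul, h8, ← hc σ J]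
        abel
      rw [h6]
      exact Submodule.sub_mem _ h4 h3)
    have h7 := Ideal.Quotient.eq.2 h5
    change Ideal.Quotient.mk I _ = _ • Ideal.Quotient.mk I _
    rw [h7, map_mul, map_intCast, zsmul_eq_mul]
  obtain ⟨c', hc', b₁, hb₁, hcb₁⟩ := finite_lemma (k := k) (m := m) (K := K) e (by
      intro s hs hsK o
      induction s using Quotient.inductionOn with
      | _ l =>
        have hχ : ∀ i : Fin l.length, ∃ χ' : R →ₐ[k] k,
            RingHom.ker χ' = Ideal.comap (Ideal.Quotient.mk I) l[i.1] := by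
          intro i
          have h3 : (l[i.1]).IsMaximal := hs _ (List.getElem_mem _)
          exact exists_char _ (Ideal.comap_isMaximal_of_surjective _
            Ideal.Quotient.mk_surjective)
        choose χ' hχ' using hχ
        obtain ⟨r, rfl⟩ := Ideal.Quotient.mk_surjective o
        obtain ⟨v, hv⟩ := h1 l.length hsK χ' (r • b₀) (bW.smul_mem r hb₀)
        refine ⟨v, ?_⟩
        obtain ⟨r', hr', hr2⟩ := hJ _ _ hv
        have h3 := hinj (r - (∑ j, v j • ρ (w j)) - r') (by
          have h4 : (r - (∑ j, v j • ρ (w j)) - r') • b₀ =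
              (r • b₀ - ∑ i, v i • w i - r' • b₀) +
              ((∑ j, v j • w j) - (∑ j, v j • ρ (w j)) • b₀) := by
            rw [sub_smul, sub_smul]
            abel
          rw [h4]
          exact Submodule.add_mem _ hr2 (hwb v))
        have h4 : Ideal.Quotient.mk I r - ev e v = Ideal.Quotient.mk I r' := by
          rw [hev, ← map_sub]
          exact Ideal.Quotient.eq.2 h3
        rw [h4]
        have h5 : ∏ i, RingHom.ker (χ' i) = (l.map (Ideal.comap (Ideal.Quotient.mk I))).prod := by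
          rw [← Fin.prod_univ_fun_getElem]
          exact Finset.prod_congr rfl fun i _ => hχ' i
        rw [h5] at hr'
        exact comap_prod_le _ l hr')
    ((List.ofFn fun l => Ideal.map (Ideal.Quotient.mk I) (RingHom.ker (χ l)) :
      List (Ideal (R ⧸ I))) : Multiset (Ideal (R ⧸ I))) (by
      intro I' hI'
      obtain ⟨l, rfl⟩ := (List.mem_ofFn' _ _).1 (Multiset.mem_coe.1 hI')
      rcases Ideal.map_eq_top_or_isMaximal_of_surjective (Ideal.Quotient.mk I)
        Ideal.Quotient.mk_surjective (hmax (χ l)) with h3 | h3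
      · exfalso
        have h4 : (1 : R ⧸ I) ∈ Ideal.map (Ideal.Quotient.mk I) (RingHom.ker (χ l)) := by
          rw [h3]
          trivial
        rw [Ideal.mem_map_iff_of_surjective _ Ideal.Quotient.mk_surjective] at h4
        obtain ⟨y, hy, hy1⟩ := h4
        have h5 : y - 1 ∈ I := Ideal.Quotient.eq.1 (by rw [hy1, map_one])
        have h6 : I ≤ RingHom.ker (χ l) := by
          rw [hI, ← Finset.mul_prod_erase _ _ (Finset.mem_univ l)]
          exact Ideal.mul_le_left
        have h7 := h6 h5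
        rw [RingHom.mem_ker] at h7 hy
        rw [map_sub, hy, map_one, zero_sub, neg_eq_zero] at h7
        exact one_ne_zero h7
      · exact h3) (n := n) (by rw [Multiset.coe_card, List.length_ofFn]) (by
      rw [Multiset.prod_coe, List.prod_ofFn]
      have h3 : ∏ l, Ideal.map (Ideal.Quotient.mk I) (RingHom.ker (χ l)) =
          Ideal.map (Ideal.Quotient.mk I) I :=
        (map_prod (Ideal.mapHom (Ideal.Quotient.mk I)) (fun l => RingHom.ker (χ l))
          Finset.univ).symm
      rw [h3, Ideal.map_quotient_self]) hnm c₁ hc₁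
  obtain ⟨b, hb, hb'⟩ := exists_lift_alt (Ideal.Quotient.mkₐ k I) Ideal.Quotient.mk_surjective
    b₁ hb₁
  refine ⟨c', b, hc', hb, fun J => ?_⟩
  set r : R := ∑ j, c' j J • ρ (w j) + ∑ j, ρ (w j) * b (Fin.cons j J) with hrdef
  have h3 : ρ (c J) - r ∈ I := by
    apply Ideal.Quotient.eq.1
    have h4 := hcb₁ J
    rw [hrdef, map_add, ← hev, map_sum, ev_apply]
    change Ideal.Quotient.mk I (ρ (c J)) = _ at h4
    rw [h4]
    congr 1
    refine Finset.sum_congr rfl fun j _ => ?_
    rw [map_mul, ← hb']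
    rfl
  have h4 : (∑ j, w j * (b (Fin.cons j J) : F)) - (∑ j, ρ (w j) * b (Fin.cons j J)) • b₀ ∈
      I • bW := by
    rw [Finset.sum_smul, ← Finset.sum_sub_distrib]
    refine Submodule.sum_mem _ fun j _ => ?_
    have h5 : w j * (b (Fin.cons j J) : F) - (ρ (w j) * b (Fin.cons j J)) • b₀ =
        b (Fin.cons j J) • (w j - ρ (w j) • b₀) := by
      rw [smul_sub, mul_comm (ρ (w j)), mul_smul, mul_comm (w j)]
      rfl
    rw [h5]
    exact Submodule.smul_mem _ _ (hρ _ (hw j))
  have h5 : c J - (∑ j, c' j J • w j + ∑ j, w j * (b (Fin.cons j J) : F)) =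
      (c J - ρ (c J) • b₀) + (ρ (c J) - r) • b₀ -
      ((∑ j, c' j J • w j) - (∑ j, c' j J • ρ (w j)) • b₀) -
      ((∑ j, w j * (b (Fin.cons j J) : F)) - (∑ j, ρ (w j) * b (Fin.cons j J)) • b₀) := by
    rw [hrdef, sub_smul, add_smul]
    abel
  rw [h5]
  exact Submodule.sub_mem _ (Submodule.sub_mem _ (Submodule.add_mem _ (hρ _ (hcb J))
    (hIb _ h3)) (hwb fun j => c' j J)) h4

end

end Pool.Agent.MPd118f9
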