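import Pool.Agent.Lib.MP_d118f9_ag.K.KMain
import Pool.Agent.Lib.MP_d118f9_ag.K.KLin
import Pool.Agent.Lib.MP_d118f9_ag.D.DMain
import Pool.Agent.Lib.MP_d118f9_ag.B.LD
import Pool.Agent.Lib.MP_d118f9_ag.M.MC

/-!
# MP_d118f9_ag: Green's conjecture for the double covers of large genus of a fixed curve
-/

set_option autoImplicit false

noncomputable section

open Classical

namespace Pool.Agent.MPd118f9

section

variable {k F : Type} [Field k] [IsAlgClosed k] [CharZero k] [Field F] [Algebra k F]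

private theorem top_bound (f : ℕ → ℤ) (n : ℕ) : ∃ M : ℤ, ∀ i ≤ n, f i ≤ M := by
  induction n with
  | zero => exact ⟨f 0, fun i hi => by rw [Nat.le_zero.1 hi]⟩
  | succ n ih =>
    obtain ⟨M, hM⟩ := ih
    refine ⟨max M (f (n + 1)), fun i hi => ?_⟩
    rcases Nat.le_succ_iff.1 hi with h | h
    · exact (hM i h).trans (le_max_left _ _)
    · rw [h]
      exact le_max_right _ _

/-- (LD) for all `i ≤ n` at once. -/
theorem exists_LD (hF : IsCurve k F) (n : ℕ) : ∃ N : ℤ, ∀ A B : Dv k F, N ≤ deg A → N ≤ deg B →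
    ∀ (r : ℕ) (a : Module.Basis (Fin r) k (L A)), ∀ i ≤ n,
      KE (fun j => (a j : F)) (L B) (L (A + B)) i := by
  choose N hN using fun i => LD hF i
  obtain ⟨M, hM⟩ := top_bound N n
  refine ⟨M, fun A B hA hB r a i hi c hc hcL hcy => ?_⟩
  exact hN i A B ((hM i hi).trans hA) ((hM i hi).trans hB) r a c hc hcL hcy

/-- (MC) for all `p + 3 ≤ 2 gon`. -/
theorem exists_MC (hF : IsCurve k F) {W : Dv k F} (hW : IsCan W) {s : ℕ}
    (w : Module.Basis (Fin s) k (L W)) : ∃ N : ℤ, ∀ A : Dv k F,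
    N ≤ deg A → ∀ (r : ℕ) (a : Module.Basis (Fin r) k (L A)) (p : ℕ), p + 3 ≤ 2 * gon k F →
        GX (fun j => (a j : F)) (fun l => (w l : F)) (L A) (L W) (L (A + W)) p := by
  have h0 : ∀ p : ℕ, ∃ N : ℤ, p + 3 ≤ 2 * gon k F → ∀ A : Dv k F, N ≤ deg A →
      ∀ (r : ℕ) (a : Module.Basis (Fin r) k (L A)),
        GX (fun j => (a j : F)) (fun l => (w l : F)) (L A) (L W) (L (A + W)) p := by
    intro p
    by_cases h : p + 3 ≤ 2 * gon k F
    · obtain ⟨N, hN⟩ := MC hF hW w p h
      exact ⟨N, fun _ => hN⟩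
    · exact ⟨0, fun h' => absurd h' h⟩
  choose N hN using h0
  obtain ⟨M, hM⟩ := top_bound N (2 * gon k F)
  exact ⟨M, fun A hA r a p hp => hN p hp A ((hM p (by omega)).trans hA) r a⟩

/-- Exactness for a double cover with `deg A` large. -/
theorem exists_exact (hF : IsCurve k F) {W : Dv k F} (hW : IsCan W) : ∃ N : ℤ, ∀ (K : Type)
    [Field K] [Algebra k K] [Algebra F K] [IsScalarTower k F K] (y : K) (s : F) (A : Dv k F)
    (WK : Dv k K), DC y s A W WK → N ≤ deg A → ∀ p q : ℕ, p + 3 ≤ 2 * gon k F → 2 ≤ q →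
      KosExact WK p q := by
  obtain ⟨N₁, h₁⟩ := exists_LD hF (2 * gon k F)
  have := hF.finDim W
  have w := Module.finBasis k (L W)
  obtain ⟨N₂, h₂⟩ := exists_MC hF hW w
  refine ⟨max (max 0 N₂) (max N₁ (N₁ - deg W)), ?_⟩
  intro K _ _ _ _ y s A WK hDC hA p q hp hq
  simp only [max_le_iff] at hA
  obtain ⟨⟨hA0, hA2⟩, hA1, hA1'⟩ := hA
  have := hF.finDim A
  have a := Module.finBasis k (L A)
  have hKE : ∀ i ≤ p, KE (fun j => (a j : F)) (L ((q - 1) • A)) (L (q • A)) i := by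
    intro i hi
    have hq1 : q • A = A + (q - 1) • A := by
      obtain ⟨q', rfl⟩ : ∃ q', q = q' + 1 := ⟨q - 1, by omega⟩
      rw [Nat.add_sub_cancel, succ_nsmul, add_comm]
    rw [hq1]
    refine h₁ A _ hA1 ?_ _ a i (by omega)
    rw [deg_nsmul]
    have h2 : (1 : ℤ) ≤ ((q - 1 : ℕ) : ℤ) := by exact_mod_cast (by omega : 1 ≤ q - 1)
    nlinarith
  refine hDC.kosExact a w hq hKE ?_
  rcases (by omega : q = 2 ∨ 3 ≤ q) with rfl | hq3
  · have e1 : (2 - 1) • A = A := one_nsmul A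
    have e2 : (((2 - 1 : ℕ) : ℤ) - 1) • A + W = W := by
      norm_num
    have e3 : (((2 : ℕ) : ℤ) - 1) • A + W = A + W := by
      norm_num
    rw [e1, e2, e3]
    exact h₂ A hA2 _ a p hp
  · refine gx_of_ke _ _ fun i hi => ?_
    have e1 : ((q : ℤ) - 1) • A + W = A + ((((q - 1 : ℕ) : ℤ) - 1) • A + W) := by
      rw [← add_assoc]
      congr 1
      have e2 : (q : ℤ) - 1 = 1 + (((q - 1 : ℕ) : ℤ) - 1) := by
        push_cast [Nat.cast_sub (by omega : 1 ≤ q)]
        ring
      rw [e2, add_zsmul, one_zsmul]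
    rw [e1]
    refine h₁ A _ hA1 ?_ _ a i (by omega)
    obtain ⟨q', rfl⟩ : ∃ q', q = q' + 3 := ⟨q - 3, by omega⟩
    have e3 : (((q' + 3 - 1 : ℕ) : ℤ) - 1) • A = (q' + 1) • A := by
      have e4 : (((q' + 3 - 1 : ℕ) : ℤ) - 1) = ((q' + 1 : ℕ) : ℤ) := by
        push_cast [Nat.cast_sub (by omega : 1 ≤ q' + 3)]
        ring
      rw [e4, natCast_zsmul]
    rw [e3, deg_add, deg_nsmul]
    push_cast
    have h3 : (0 : ℤ) ≤ q' * deg A := mul_nonneg (by positivity) hA0
    nlinarith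

end

/-- **Green's conjecture for double covers of large genus.**  Let `k` be algebraically closed of
characteristic zero and `F` the function field of a smooth projective curve `Y`. There is a number
`N` such that for every smooth projective curve `X` (function field `K`) of genus at least `N` with
a map `X → Y` of degree two, the canonical bundle of `X` satisfies `(N_p)` for every
`p < Cliff(X)`. -/
theorem green_double_cover {k F : Type} [Field k] [IsAlgClosed k] [CharZero k] [Field F]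
    [Algebra k F] (hF : IsCurve k F) :
    ∃ N : ℕ, ∀ (K : Type) [Field K] [Algebra k K] [Algebra F K] [IsScalarTower k F K],
      Module.finrank F K = 2 → N ≤ genus k K →
        ∀ W : Dv k K, IsCan W → ∀ p : ℕ, p < cliff W → Np W p := by
  obtain ⟨W, hW⟩ := hF.exists_can
  obtain ⟨N₁, h₁⟩ := exists_DC hF hW
  obtain ⟨N₂, h₂⟩ := exists_exact hF hW
  refine ⟨max N₁ (N₂.toNat + 1), ?_⟩
  intro K _ _ _ _ hfr hg W' hW' p hp
  have hfin : FiniteDimensional F K := FiniteDimensional.of_finrank_pos (by rw [hfr]; norm_num)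
  have hK : IsCurve k K := hF.of_finite
  obtain ⟨y, s, A, WK, hDC, hWK, hdeg, hcl⟩ := h₁ K hfr ((le_max_left _ _).trans hg)
  have hA : N₂ ≤ deg A := by
    have h3 := (le_max_right _ _).trans hg
    have h4 := Int.self_le_toNat N₂
    omega
  refine Np.of_can hK hWK hW' ?_
  rw [cliff_eq hK hW' hWK] at hp
  intro i hi q hq
  exact h₂ K y s A WK hDC hA i q (by omega) hq

end Pool.Agent.MPd118f9
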